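import Mathlib

/-! # Multiplicative independence -/

namespace Pool.Agent.Y315.CF

lemma gcd_sq_le {p q i j : ℕ} (hp : 1 < p) (hpq : p < q) (hi : i ≠ 0) (h : p ^ i = q ^ j) :
    ((p - 1).gcd (q - 1)) ^ 2 ≤ q := by
  obtain ⟨c, hc1, hc2⟩ := Nat.exists_eq_pow_of_pow_eq_pow (Or.inl hi) h
  set a := j / i.gcd j
  set b := i / i.gcd j
  have hc : 1 < c := by
    by_contra hle
    push Not at hle
    interval_cases c
    · rcases Nat.eq_zero_or_pos a with h0 | h0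
      · rw [h0] at hc1; simp at hc1; omega
      · rw [zero_pow h0.ne'] at hc1; omega
    · simp at hc1; omega
  have hab : a < b := by
    rw [hc1, hc2] at hpq
    exact (Nat.pow_lt_pow_iff_right hc).1 hpq
  have ha : 0 < a := by
    rcases Nat.eq_zero_or_pos a with h0 | h0
    · rw [h0] at hc1; simp at hc1; omega
    · exact h0
  have hg2 : 2 * a.gcd b ≤ b := by
    obtain ⟨k, hk⟩ := Nat.gcd_dvd_right a b
    have h1 : a.gcd b ≤ a := Nat.gcd_le_left _ ha
    have h2 : k ≠ 1 := by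
      intro h; rw [h, mul_one] at hk; omega
    have h3 : k ≠ 0 := by
      intro h; rw [h, mul_zero] at hk; omega
    have h4 : 2 ≤ k := by omega
    calc 2 * a.gcd b = a.gcd b * 2 := by ring
      _ ≤ a.gcd b * k := Nat.mul_le_mul_left _ h4
      _ = b := hk.symm
  rw [hc1, hc2, Nat.pow_sub_one_gcd_pow_sub_one]
  calc (c ^ a.gcd b - 1) ^ 2 ≤ (c ^ a.gcd b) ^ 2 := Nat.pow_le_pow_left (Nat.sub_le _ _) 2
    _ = c ^ (2 * a.gcd b) := by rw [← pow_mul, mul_comm]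
    _ ≤ c ^ b := Nat.pow_le_pow_right (by omega) hg2

lemma irrational_of_gcd {p q : ℕ} (hp : 1 < p) (hpq : p < q)
    (h : 2 * (q : ℝ) ^ 5 ≤ (((p - 1).gcd (q - 1) : ℕ) : ℝ) ^ 6) :
    Irrational (Real.log p / Real.log q) := by
  rintro ⟨r, hr⟩
  have hq1 : (1 : ℝ) < q := by exact_mod_cast (by omega : 1 < q)
  have hp1 : (1 : ℝ) < p := by exact_mod_cast hp
  have lp : 0 < Real.log p := Real.log_pos hp1
  have lq : 0 < Real.log q := Real.log_pos hq1
  have hr0 : 0 < r := by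
    have : (0 : ℝ) < (r : ℝ) := by rw [hr]; positivity
    exact_mod_cast this
  have hnum : (0 : ℤ) < r.num := Rat.num_pos.2 hr0
  obtain ⟨j, hj⟩ := Int.eq_ofNat_of_zero_le hnum.le
  have hrj : (r : ℝ) = j / r.den := by
    rw [Rat.cast_def, hj]; simp
  have hden : (0 : ℝ) < r.den := by exact_mod_cast r.den_pos
  have e : (r.den : ℝ) * Real.log p = j * Real.log q := by
    rw [hrj] at hr
    field_simp at hr
    linarith
  have hpow : p ^ r.den = q ^ j := by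
    have h1 : Real.log ((p : ℝ) ^ r.den) = Real.log ((q : ℝ) ^ j) := by
      rw [Real.log_pow, Real.log_pow]; exact e
    have h2 := Real.log_injOn_pos (Set.mem_Ioi.2 (by positivity)) (Set.mem_Ioi.2 (by positivity)) h1
    exact_mod_cast h2
  have h3 := gcd_sq_le hp hpq r.den_pos.ne' hpow
  have h4 : ((((p - 1).gcd (q - 1) : ℕ) : ℝ)) ^ 2 ≤ q := by exact_mod_cast h3
  have h5 : ((((p - 1).gcd (q - 1) : ℕ) : ℝ)) ^ 6 ≤ (q : ℝ) ^ 3 := by
    calc ((((p - 1).gcd (q - 1) : ℕ) : ℝ)) ^ 6 = (((((p - 1).gcd (q - 1) : ℕ) : ℝ)) ^ 2) ^ 3 := by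
          ring
      _ ≤ (q : ℝ) ^ 3 := pow_le_pow_left₀ (by positivity) h4 3
  have h6 : (q : ℝ) ^ 3 ≤ (q : ℝ) ^ 5 := pow_le_pow_right₀ hq1.le (by norm_num)
  have h7 : 0 < (q : ℝ) ^ 5 := by positivity
  linarith

end Pool.Agent.Y315.CF
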