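import Pool.Agent.Y315.CF.Region

/-! # The dual certificate -/

namespace Pool.Agent.Y315.CF

open Real

/-- Quantitative form of: `F` has period one and its only maximum modulo one is at `0`, with
second derivative `-K < 0`. -/
structure Nd (F : ℝ → ℝ) (K κ δ : ℝ) : Prop where
  hK : 0 < K
  hκ : 0 < κ
  hκK : κ ≤ K
  hδ : 0 < δ
  per : Function.Periodic F 1
  tan : ∀ y z, |y| ≤ δ → |z| ≤ δ → F z ≤ F y + deriv F y * (z - y) - 99 / 200 * K * (z - y) ^ 2
  der : ∀ y, |y| ≤ δ → |deriv F y + K * y| ≤ K / 100 * |y|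
  low : ∀ y, |y| ≤ δ → F 0 - 101 / 200 * K * y ^ 2 ≤ F y
  far : ∀ x, |x| ≤ 3 / 4 → κ * x ^ 2 ≤ F 0 - F x

/-- Largeness of `g`; `w` is `1300 K / κ`. -/
structure Big (w δ : ℝ) (n g : ℕ) : Prop where
  g1 : 200000 * (n : ℝ) ^ 5 ≤ g
  g2 : 4 * w * (n : ℝ) ^ 3 ≤ g
  g3 : 2 * w * (n : ℝ) ^ 2 ≤ δ * g

/-- The scaled difference of the function. -/
noncomputable def phi (F : ℝ → ℝ) (K t g s : ℝ) : ℝ :=
  (F (-t) - F (s / g - t)) * g ^ 2 / K

/-- All data at one place. -/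
structure Data (F : ℝ → ℝ) (K κ δ w : ℝ) (m n g : ℕ) (t : ℝ) : Prop where
  N : Nd F K κ δ
  hw : w = 1300 * K / κ
  hm : 1 ≤ m
  hmn : m < n
  hco : m.Coprime n
  G : Big w δ n g
  ht0 : 0 ≤ t
  ht1 : g * t ≤ 51 / 100
  ht2 : F (1 / g - t) ≤ F (-t)

/-- The numerical part of the far region. -/
lemma num_far {n s τ w r P Z B0 B1 : ℝ} (hn2 : 2 ≤ n) (hw1 : 1300 ≤ w) (k0 : 0 < r)
    (kw : r * w = 1300) (c1 : w * n ^ 2 < |s|) (ht0 : 0 ≤ τ) (ht1 : τ ≤ 51 / 100)
    (p : r * (s - τ) ^ 2 - 101 / 200 * τ ^ 2 ≤ P)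
    (q : -(80 * n ^ 4) - 8 / 10 * (B0 * |s| + B1 * |s - 1|) ≤ Z)
    (hB0' : B0 ≤ 103 / 100) (hB1' : B1 ≤ 52 / 100) : 0 < P + Z := by
  have hs0 : 0 ≤ |s| := abs_nonneg s
  have hnsq : (4 : ℝ) ≤ n ^ 2 := by
    calc (4 : ℝ) = 2 ^ 2 := by norm_num
      _ ≤ n ^ 2 := pow_le_pow_left₀ (by norm_num) hn2 2
  have hW : (5200 : ℝ) ≤ w * n ^ 2 := by
    calc (5200 : ℝ) = 1300 * 4 := by norm_num
      _ ≤ w * n ^ 2 := mul_le_mul hw1 hnsq (by norm_num) (by linarith)
  have a1 : s ^ 2 / 4 ≤ (s - τ) ^ 2 := by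
    have b1 : |s| / 2 ≤ |s - τ| := by
      have := abs_sub_abs_le_abs_sub s τ
      rw [abs_of_nonneg ht0] at this
      linarith
    rw [← sq_abs (s - τ), ← sq_abs s]
    nlinarith [abs_nonneg (s - τ)]
  have a2 : r * (s ^ 2 / 4) ≤ r * (s - τ) ^ 2 := mul_le_mul_of_nonneg_left a1 k0.le
  have a3 : 1300 * n ^ 2 * |s| ≤ r * s ^ 2 := by
    rw [← sq_abs s]
    calc 1300 * n ^ 2 * |s| = r * ((w * n ^ 2) * |s|) := by rw [← kw]; ring
      _ ≤ r * (|s| * |s|) := by
          apply mul_le_mul_of_nonneg_left _ k0.le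
          exact mul_le_mul_of_nonneg_right c1.le hs0
      _ = r * |s| ^ 2 := by ring
  have a4 : 1300 * n ^ 2 ≤ |s| :=
    (mul_le_mul_of_nonneg_right hw1 (by positivity)).trans c1.le
  have a5 : 1300 * n ^ 2 * (1300 * n ^ 2) ≤ 1300 * n ^ 2 * |s| :=
    mul_le_mul_of_nonneg_left a4 (by positivity)
  have hn4 : (1 : ℝ) ≤ n ^ 4 := one_le_pow₀ (by linarith)
  have a6 : 4 * |s| ≤ n ^ 2 * |s| := mul_le_mul_of_nonneg_right hnsq hs0
  have a7 : B0 * |s| ≤ 103 / 100 * |s| := mul_le_mul_of_nonneg_right hB0' hs0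
  have a8 : |s - 1| ≤ |s| + 1 := by
    have := abs_sub s 1
    rwa [abs_one] at this
  have a9 : B1 * |s - 1| ≤ 52 / 100 * (|s| + 1) :=
    mul_le_mul hB1' a8 (abs_nonneg _) (by norm_num)
  have a10 : τ ^ 2 ≤ 1 := by nlinarith
  have a11 : 1300 * n ^ 2 * (1300 * n ^ 2) = 1690000 * n ^ 4 := by ring
  have a12 : n ^ 2 * |s| * 1300 ≤ r * s ^ 2 := by linarith
  have a13 : 1690000 * n ^ 4 ≤ n ^ 2 * |s| * 1300 := by linarith
  have a14 : r * (s ^ 2 / 4) = r * s ^ 2 / 4 := by ring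
  rw [a14] at a2
  linarith

namespace Data

variable {F : ℝ → ℝ} {K κ δ w t : ℝ} {m n g : ℕ} (A : Data F K κ δ w m n g t)

include A

lemma n2 : (2 : ℝ) ≤ n := by
  have := A.hm; have := A.hmn
  exact_mod_cast (by omega : 2 ≤ n)

lemma w1 : 1300 ≤ w := by
  rw [A.hw, le_div_iff₀ A.N.hκ]; nlinarith [A.N.hκK]

lemma wκ : κ / K * w = 1300 := by
  rw [A.hw]; have := A.N.hκ; have := A.N.hK; field_simp

lemma gpos : (1000000 : ℝ) ≤ g := by
  have h1 := A.G.g1
  have h3 : (2 : ℝ) ^ 5 ≤ (n : ℝ) ^ 5 := pow_le_pow_left₀ (by norm_num) A.n2 5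
  norm_num at h3
  linarith

lemma g0 : (0 : ℝ) < g := by linarith [A.gpos]

lemma par : Par m n (2 * π / g) := by
  have hg := A.gpos
  refine ⟨A.hm, A.hmn, A.hco, by positivity, ?_⟩
  rw [mul_div_assoc', div_le_one (by linarith)]
  have h1 := A.G.g1
  have h2 : 30000 * (n : ℝ) ^ 5 * (2 * π) ≤ 200000 * (n : ℝ) ^ 5 := by
    have : 0 ≤ (n : ℝ) ^ 5 := by positivity
    nlinarith [pi_lt_d2]
  linarith

lemma hE {s : ℝ} (hs : |s| ≤ w * (n : ℝ) ^ 2) : n * (2 * π / g) * (|s| + 1) ≤ π := by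
  have hg := A.gpos
  have h1 := A.G.g2
  have h2 := A.w1
  have h3 := A.n2
  have h4 : |s| + 1 ≤ 2 * (w * (n : ℝ) ^ 2) := by nlinarith
  have h5 : 2 * (n : ℝ) * (|s| + 1) ≤ g := by
    calc 2 * (n : ℝ) * (|s| + 1) ≤ 2 * n * (2 * (w * (n : ℝ) ^ 2)) :=
          mul_le_mul_of_nonneg_left h4 (by linarith)
      _ = 4 * w * (n : ℝ) ^ 3 := by ring
      _ ≤ g := h1
  rw [show n * (2 * π / g) * (|s| + 1) = (2 * (n : ℝ) * (|s| + 1)) * π / g by ring,
    div_le_iff₀ (by linarith)]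
  nlinarith [pi_pos]

lemma near {s : ℝ} (hs : |s| ≤ w * (n : ℝ) ^ 2 + 1) : |s / g| ≤ δ := by
  have hg := A.gpos
  rw [abs_div, abs_of_pos A.g0, div_le_iff₀ A.g0]
  have h1 := A.G.g3
  have h2 := A.w1
  have h3 := A.n2
  have : 1 ≤ w * (n : ℝ) ^ 2 := by nlinarith
  linarith

lemma near_t : |(-t)| ≤ δ := by
  have h := A.near (s := -(g * t)) (by
    have := A.ht0; have := A.g0; have := A.ht1; have := A.w1; have := A.n2
    rw [abs_neg, abs_of_nonneg (by positivity)]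
    have : 0 ≤ w * (n : ℝ) ^ 2 := by positivity
    linarith)
  rwa [show -((g : ℝ) * t) / g = -t by have := A.g0; field_simp] at h

lemma near_s {s : ℝ} (hs : |s| ≤ w * (n : ℝ) ^ 2) : |s / g - t| ≤ δ := by
  have h := A.near (s := s - g * t) (by
    have := A.ht0; have := A.g0; have := A.ht1; have := A.w1; have := A.n2
    refine (abs_sub _ _).trans ?_
    rw [abs_of_nonneg (by positivity : 0 ≤ (g : ℝ) * t)]
    linarith)
  rwa [show (s - (g : ℝ) * t) / g = s / g - t by have := A.g0; field_simp] at h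

lemma gK : 0 < (g : ℝ) ^ 2 / K := div_pos (pow_pos A.g0 2) A.N.hK

/-- Near `s = 0`. -/
lemma phi0 {s : ℝ} (hs : |s| ≤ w * (n : ℝ) ^ 2) :
    -(deriv F (-t) * g / K) * s + 99 / 200 * s ^ 2 ≤ phi F K t g s := by
  have h := A.N.tan (-t) (s / g - t) A.near_t (A.near_s hs)
  have hg := A.g0
  have hK := A.N.hK
  unfold phi
  have h2 : deriv F (-t) * (-(s / g)) + 99 / 200 * K * (s / g) ^ 2 ≤ F (-t) - F (s / g - t) := by
    rw [show s / g - t - -t = s / g by ring] at h; linarith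
  have h3 := mul_le_mul_of_nonneg_right h2 A.gK.le
  calc -(deriv F (-t) * g / K) * s + 99 / 200 * s ^ 2
      = (deriv F (-t) * (-(s / g)) + 99 / 200 * K * (s / g) ^ 2) * ((g : ℝ) ^ 2 / K) := by
        field_simp
    _ ≤ _ := h3
    _ = _ := by ring

/-- Near `s = 1`. -/
lemma phi1 {s : ℝ} (hs : |s| ≤ w * (n : ℝ) ^ 2) :
    (-deriv F (1 / g - t) * g / K) * (s - 1) + 99 / 200 * (s - 1) ^ 2 ≤ phi F K t g s := by
  have h1w : |(1 : ℝ)| ≤ w * (n : ℝ) ^ 2 := by
    have := A.w1; have := A.n2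
    rw [abs_one]; nlinarith
  have h := A.N.tan (1 / g - t) (s / g - t) (A.near_s h1w) (A.near_s hs)
  have hg := A.g0
  have hK := A.N.hK
  have ht2 := A.ht2
  unfold phi
  have h2 : -deriv F (1 / g - t) * ((s - 1) / g) + 99 / 200 * K * ((s - 1) / g) ^ 2
      ≤ F (-t) - F (s / g - t) := by
    rw [show s / g - t - (1 / g - t) = (s - 1) / g by ring] at h; linarith
  have h3 := mul_le_mul_of_nonneg_right h2 A.gK.le
  calc (-deriv F (1 / g - t) * g / K) * (s - 1) + 99 / 200 * (s - 1) ^ 2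
      = (-deriv F (1 / g - t) * ((s - 1) / g) + 99 / 200 * K * ((s - 1) / g) ^ 2)
          * ((g : ℝ) ^ 2 / K) := by
        field_simp
    _ ≤ _ := h3
    _ = _ := by ring

lemma der0 : deriv F 0 = 0 := by
  have := A.N.der 0 (by simpa using A.N.hδ.le)
  simpa using this

/-- Middle region. -/
lemma phiM {s : ℝ} (hs : |s| ≤ w * (n : ℝ) ^ 2) :
    1 / 2 * (99 / 100 * (s - g * t) ^ 2 - 101 / 100 * (g * t) ^ 2) ≤ phi F K t g s := by
  have h := A.N.tan 0 (s / g - t) (by simpa using A.N.hδ.le) (A.near_s hs)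
  have h1 := A.N.low (-t) A.near_t
  rw [A.der0] at h
  have hg := A.g0
  have hK := A.N.hK
  unfold phi
  have h2 : 99 / 200 * K * (s / g - t) ^ 2 - 101 / 200 * K * t ^ 2 ≤ F (-t) - F (s / g - t) := by
    rw [sub_zero] at h; nlinarith
  have h3 := mul_le_mul_of_nonneg_right h2 A.gK.le
  calc 1 / 2 * (99 / 100 * (s - g * t) ^ 2 - 101 / 100 * (g * t) ^ 2)
      = (99 / 200 * K * (s / g - t) ^ 2 - 101 / 200 * K * t ^ 2) * ((g : ℝ) ^ 2 / K) := by
        field_simp; ring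
    _ ≤ _ := h3
    _ = _ := by ring

/-- Far region. -/
lemma phiF {s : ℝ} (hs : |s| ≤ g / 2) :
    κ / K * (s - g * t) ^ 2 - 101 / 200 * (g * t) ^ 2 ≤ phi F K t g s := by
  have hg := A.g0
  have hg1 := A.gpos
  have hK := A.N.hK
  have h := A.N.far (s / g - t) (by
    refine (abs_sub _ _).trans ?_
    have h1 : |s / g| ≤ 1 / 2 := by
      rw [abs_div, abs_of_pos hg, div_le_iff₀ hg]; linarith
    have h2 : |t| ≤ 1 / 4 := by
      rw [abs_of_nonneg A.ht0]; nlinarith [A.ht1, A.ht0]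
    linarith)
  have h1 := A.N.low (-t) A.near_t
  unfold phi
  have h2 : κ * (s / g - t) ^ 2 - 101 / 200 * K * t ^ 2 ≤ F (-t) - F (s / g - t) := by
    nlinarith
  have h3 := mul_le_mul_of_nonneg_right h2 A.gK.le
  calc κ / K * (s - g * t) ^ 2 - 101 / 200 * (g * t) ^ 2
      = (κ * (s / g - t) ^ 2 - 101 / 200 * K * t ^ 2) * ((g : ℝ) ^ 2 / K) := by
        field_simp
    _ ≤ _ := h3
    _ = _ := by ring

/-- Bounds of the first slope. -/
lemma B1 : 0 ≤ deriv F (-t) * g / K ∧ deriv F (-t) * g / K ≤ 101 / 100 * (g * t) := by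
  have h := A.N.der (-t) A.near_t
  rw [abs_neg, abs_of_nonneg A.ht0, abs_le] at h
  have hg := A.g0
  have hK := A.N.hK
  have ht := A.ht0
  have hKt : 0 ≤ K * t := by positivity
  constructor
  · apply div_nonneg _ hK.le
    apply mul_nonneg _ hg.le
    nlinarith [h.1]
  · rw [div_le_iff₀ hK]
    have h1 : deriv F (-t) ≤ 101 / 100 * K * t := by nlinarith [h.2]
    have := mul_le_mul_of_nonneg_right h1 hg.le
    nlinarith

/-- Bounds of the second slope. -/
lemma B2 : 0 ≤ -deriv F (1 / g - t) * g / K ∧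
    -deriv F (1 / g - t) * g / K ≤ 101 / 100 * (1 - g * t) := by
  have h1w : |(1 : ℝ)| ≤ w * (n : ℝ) ^ 2 := by
    have := A.w1; have := A.n2
    rw [abs_one]; nlinarith
  have h := A.N.der (1 / g - t) (A.near_s h1w)
  have hg := A.g0
  have hK := A.N.hK
  have hpos : 0 ≤ 1 / g - t := by
    rw [sub_nonneg, le_div_iff₀ hg]; linarith [A.ht1]
  rw [abs_of_nonneg hpos, abs_le] at h
  have hKt : 0 ≤ K * (1 / g - t) := by positivity
  constructor
  · apply div_nonneg _ hK.le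
    apply mul_nonneg _ hg.le
    nlinarith [h.2]
  · rw [div_le_iff₀ hK]
    have h1 : -deriv F (1 / g - t) ≤ 101 / 100 * K * (1 / g - t) := by nlinarith [h.1]
    have h2 := mul_le_mul_of_nonneg_right h1 hg.le
    have h3 : 101 / 100 * K * (1 / g - t) * g = 101 / 100 * (1 - g * t) * K := by
      field_simp
    linarith

/-- The second coefficient with its correction. -/
lemma B0 : 0 ≤ -deriv F (1 / g - t) * g / K
      + 20 * (n : ℝ) ^ 4 * (sin (2 * π / g) * (2 * π * (m + n))) ∧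
    -deriv F (1 / g - t) * g / K
      + 20 * (n : ℝ) ^ 4 * (sin (2 * π / g) * (2 * π * (m + n)))
      ≤ 101 / 100 * (1 - g * t) + 1 / 100 := by
  have hP := A.par
  have hb := A.B2
  have h0 := hP.h0
  have h1 := hP.hh1
  have hs0 : 0 ≤ sin (2 * π / g) := sin_nonneg_of_nonneg_of_le_pi h0.le (by linarith [pi_gt_three])
  have hs1 : sin (2 * π / g) ≤ 2 * π / g := sin_le h0.le
  have hmn := hP.mn
  have hm := hP.m1
  constructor
  · have : 0 ≤ 20 * (n : ℝ) ^ 4 * (sin (2 * π / g) * (2 * π * (m + n))) := by positivity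
    linarith [hb.1]
  · have h2 : 2 * π * ((m : ℝ) + n) ≤ 12.6 * n := by
      have : 2 * π * ((m : ℝ) + n) ≤ 2 * π * (2 * n) :=
        mul_le_mul_of_nonneg_left (by linarith) (by positivity)
      nlinarith [pi_lt_d2]
    have h3 : sin (2 * π / g) * (2 * π * (m + n)) ≤ 2 * π / g * (12.6 * n) :=
      mul_le_mul hs1 h2 (by positivity) h0.le
    have h4 : 20 * (n : ℝ) ^ 4 * (sin (2 * π / g) * (2 * π * (m + n)))
        ≤ 20 * (n : ℝ) ^ 4 * (2 * π / g * (12.6 * n)) :=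
      mul_le_mul_of_nonneg_left h3 (by positivity)
    have h5 : 20 * (n : ℝ) ^ 4 * (2 * π / g * (12.6 * n))
        = 252 / 30000 * (30000 * (n : ℝ) ^ 5 * (2 * π / g)) := by ring
    have h6 := hP.hs
    linarith [hb.2]

/-- **Positivity of the scaled certificate.** -/
theorem pos {s : ℝ} (hs : |s| ≤ g / 2) :
    0 ≤ phi F K t g s + Zf m n (2 * π / g) (20 * (n : ℝ) ^ 4)
      (-deriv F (1 / g - t) * g / K + 20 * (n : ℝ) ^ 4 * (sin (2 * π / g) * (2 * π * (m + n))))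
      (deriv F (-t) * g / K) s ∧
    (phi F K t g s + Zf m n (2 * π / g) (20 * (n : ℝ) ^ 4)
      (-deriv F (1 / g - t) * g / K + 20 * (n : ℝ) ^ 4 * (sin (2 * π / g) * (2 * π * (m + n))))
      (deriv F (-t) * g / K) s = 0 → s = 0 ∨ s = 1) := by
  have hP := A.par
  have hb0 := A.B0
  have hb1 := A.B1
  have hb2 := A.B2
  have ht0 : 0 ≤ g * t := mul_nonneg A.g0.le A.ht0
  have ht1 := A.ht1
  have hw1 := A.w1
  have hn2 := A.n2
  set h := 2 * π / g with hh
  set C := 20 * (n : ℝ) ^ 4 * (sin h * (2 * π * (m + n))) with hC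
  set β1 := deriv F (-t) * g / K with hβ1
  set β2 := -deriv F (1 / g - t) * g / K with hβ2
  set τ := (g : ℝ) * t with hτ
  have hD := hP.D1pos
  have hW : (5200 : ℝ) ≤ w * (n : ℝ) ^ 2 := by nlinarith
  have hB0' : β2 + C ≤ 103 / 100 := by linarith [hb0.2]
  have hB1' : β1 ≤ 52 / 100 := by linarith [hb1.2]
  by_cases c1 : |s| ≤ w * (n : ℝ) ^ 2
  · by_cases c2 : |s| ≤ 2 / 3
    · -- region I
      have r := region_near hP (j := 0) (β := -β1) (σ := s) (by norm_num) hb0.1 hb1.1 hB0' hB1' c2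
        (by
          have e1 : D (m : ℝ) n h ((0 : ℕ) : ℝ) = 0 := by simp [D]
          have e2 : D (m : ℝ) n h (((0 : ℕ) : ℝ) - 1) = -D m n h 1 := by
            rw [show ((0 : ℕ) : ℝ) - 1 = -1 by norm_num, D_neg]
          rw [e1, e2]; ring)
        (by rw [abs_neg, abs_of_nonneg hb1.1]; linarith)
      have e : ((0 : ℕ) : ℝ) + s = s := by simp
      rw [e] at r
      have e2 : sin (h * ((0 : ℕ) : ℝ)) = 0 := by simp
      rw [e2] at r
      have p := A.phi0 c1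
      rw [← hβ1] at p
      have q : 99 / 200 * s ^ 2 ≤ phi F K t g s
          + Zf m n h (20 * (n : ℝ) ^ 4) (β2 + C) β1 s := by linarith
      refine ⟨by nlinarith [sq_nonneg s], fun he => Or.inl ?_⟩
      rw [he] at q
      have : s ^ 2 = 0 := le_antisymm (by linarith) (sq_nonneg s)
      exact pow_eq_zero_iff (two_ne_zero) |>.1 this
    · by_cases c3 : |s - 1| ≤ 2 / 3
      · -- region II
        have r := region_near hP (j := 1) (β := β2 + C) (σ := s - 1) le_rfl hb0.1 hb1.1 hB0' hB1' c3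
          (by
            have e1 : D (m : ℝ) n h (((1 : ℕ) : ℝ) - 1) = 0 := by simp [D]
            have e2 : D (m : ℝ) n h (((1 : ℕ) : ℝ)) = D m n h 1 := by norm_num
            rw [e1, e2]; ring)
          (by rw [abs_of_nonneg hb0.1]; linarith)
        have e : ((1 : ℕ) : ℝ) + (s - 1) = s := by push_cast; ring
        rw [e] at r
        have e2 : h * ((1 : ℕ) : ℝ) = h := by simp
        rw [e2] at r
        have p := A.phi1 c1
        rw [← hβ2] at p
        have q : 99 / 200 * (s - 1) ^ 2 ≤ phi F K t g s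
            + Zf m n h (20 * (n : ℝ) ^ 4) (β2 + C) β1 s := by
          rw [← hC] at r
          linarith
        refine ⟨by nlinarith [sq_nonneg (s - 1)], fun he => Or.inr ?_⟩
        rw [he] at q
        have : (s - 1) ^ 2 = 0 := le_antisymm (by linarith) (sq_nonneg _)
        have := pow_eq_zero_iff (two_ne_zero) |>.1 this
        linarith
      · -- region III
        have hs' : s ≤ -(2 / 3) ∨ 5 / 3 ≤ s := by
          push Not at c2 c3
          rcases lt_abs.1 c2 with h1 | h1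
          · rcases lt_abs.1 c3 with h2 | h2
            · right; linarith
            · linarith
          · left; linarith
        have r := region_mid hP hb0.1 hb1.1 (s := s) (A.hE c1)
        have p := A.phiM c1
        have q := num_mid hs' ht0 ht1 hb1.2 hb0.2 p
        have : 0 < phi F K t g s
            + Zf m n h (20 * (n : ℝ) ^ 4) (β2 + C) β1 s := by linarith
        exact ⟨this.le, fun he => absurd he this.ne'⟩
  · -- region IV
    push Not at c1
    have : 0 < phi F K t g s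
            + Zf m n h (20 * (n : ℝ) ^ 4) (β2 + C) β1 s :=
      num_far hn2 hw1 (div_pos A.N.hκ A.N.hK) A.wκ c1 ht0 ht1 (A.phiF hs)
        (region_far hP hb0.1 hb1.1 (s := s)) hB0' hB1'
    exact ⟨this.le, fun he => absurd he this.ne'⟩

end Data

end Pool.Agent.Y315.CF
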