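import Pool.Agent.Y315.CF.Real

/-! # Integration over the circle -/

namespace Pool.Agent.Y315.CF

open MeasureTheory

/-- A continuous periodic function descends to a continuous function on the circle. -/
lemma exists_lift {u : ℝ → ℝ} (hu : Continuous u) (pu : Function.Periodic u 1) :
    ∃ U : UnitAddCircle → ℝ, Continuous U ∧ ∀ x : ℝ, U (x : UnitAddCircle) = u x := by
  refine ⟨pu.lift, ?_, fun x => pu.lift_coe x⟩
  exact continuous_coinduced_dom.2 hu

lemma nsmul_coe (p : ℕ) (x : ℝ) : p • (x : UnitAddCircle) = ((p * x : ℝ) : UnitAddCircle) := by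
  rw [← nsmul_eq_mul]; rfl

lemma coe_eq_zero {x : ℝ} : (x : UnitAddCircle) = 0 ↔ ∃ k : ℤ, x = k := by
  rw [AddCircle.coe_eq_zero_iff]
  constructor
  · rintro ⟨k, hk⟩; exact ⟨k, by rw [← hk]; simp⟩
  · rintro ⟨k, hk⟩; exact ⟨k, by rw [hk]; simp⟩

lemma coe_eq_coe {x y : ℝ} : (x : UnitAddCircle) = y ↔ ∃ k : ℤ, x - y = k := by
  rw [← sub_eq_zero, ← AddCircle.coe_sub, coe_eq_zero]

/-- The certificate implies the bound for every invariant measure. -/
lemma bound_of_certified {G : UnitAddCircle → ℝ} {f : ℝ → ℝ} (hf : Continuous f)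
    (hG : ∀ x : ℝ, G (x : UnitAddCircle) = f x) (pf : Function.Periodic f 1) {p q g : ℕ} {M T : ℝ}
    (h : Certified f p q g M T) {μ : Measure UnitAddCircle} [IsProbabilityMeasure μ]
    (hp : MeasurePreserving (fun x => p • x) μ μ) (hq : MeasurePreserving (fun x => q • x) μ μ) :
    ∫ x, G (x - (T : UnitAddCircle)) ∂μ ≤ M ∧
      (∫ x, G (x - (T : UnitAddCircle)) ∂μ = M → ∀ᵐ x ∂μ, g • x = 0) := by
  obtain ⟨u, v, hu, hv, pu, pv, H⟩ := h
  obtain ⟨U, cU, hU⟩ := exists_lift hu pu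
  obtain ⟨V, cV, hV⟩ := exists_lift hv pv
  obtain ⟨G', cG', hG'⟩ := exists_lift hf pf
  have hGG : G = G' := by
    funext y
    obtain ⟨x, rfl⟩ := QuotientAddGroup.mk_surjective y
    exact (hG x).trans (hG' x).symm
  have cG : Continuous G := hGG ▸ cG'
  have hint : ∀ (W : UnitAddCircle → ℝ), Continuous W → Integrable W μ := by
    intro W hW
    exact (hW.integrable_of_hasCompactSupport (HasCompactSupport.of_compactSpace W))
  have inv : ∀ (W : UnitAddCircle → ℝ) (r : ℕ), Continuous W →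
      MeasurePreserving (fun x => r • x) μ μ → ∫ x, W (r • x) ∂μ = ∫ x, W x ∂μ := by
    intro W r hW hr
    have h1 := integral_map (μ := μ) hr.measurable.aemeasurable
      (f := W) (by rw [hr.map_eq]; exact hW.aestronglyMeasurable)
    rw [hr.map_eq] at h1
    exact h1.symm
  set P : UnitAddCircle → ℝ := fun x =>
    (M - G (x - (T : UnitAddCircle))) + (U x - U (p • x)) + (V x - V (q • x)) with hP
  have hPval : ∀ x : ℝ, P (x : UnitAddCircle)
      = (M - f (x - T)) + (u x - u (p * x)) + (v x - v (q * x)) := by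
    intro x
    simp only [hP, nsmul_coe, hU, hV, ← AddCircle.coe_sub, hG]
  have hP0 : ∀ y, 0 ≤ P y := by
    intro y
    obtain ⟨x, rfl⟩ := QuotientAddGroup.mk_surjective y
    have := (H x).1
    rw [← hPval] at this
    exact this
  have cGT : Continuous (fun x => G (x - (T : UnitAddCircle))) := by fun_prop
  have cUp : Continuous (fun x : UnitAddCircle => U (p • x)) := cU.comp (continuous_nsmul p)
  have cVq : Continuous (fun x : UnitAddCircle => V (q • x)) := cV.comp (continuous_nsmul q)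
  have hPi : ∫ x, P x ∂μ = M - ∫ x, G (x - (T : UnitAddCircle)) ∂μ := by
    simp only [hP]
    rw [integral_add, integral_add, integral_sub, integral_sub, integral_sub, inv U p cU hp,
      inv V q cV hq]
    · simp
    · exact hint _ cV
    · exact hint _ cVq
    · exact hint _ cU
    · exact hint _ cUp
    · exact hint _ continuous_const
    · exact hint _ cGT
    · exact hint _ (continuous_const.sub cGT)
    · exact hint _ (cU.sub cUp)
    · exact hint _ ((continuous_const.sub cGT).add (cU.sub cUp))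
    · exact hint _ (cV.sub cVq)
  constructor
  · have := integral_nonneg (μ := μ) (f := P) (fun y => hP0 y)
    linarith
  · intro h0
    have h1 : ∫ x, P x ∂μ = 0 := by rw [hPi, h0, sub_self]
    have hPc : Continuous P := ((continuous_const.sub cGT).add (cU.sub cUp)).add (cV.sub cVq)
    rw [integral_eq_zero_iff_of_nonneg (fun y => hP0 y) (hint _ hPc)] at h1
    filter_upwards [h1] with y hy
    obtain ⟨x, rfl⟩ := QuotientAddGroup.mk_surjective y
    have h2 : P (x : UnitAddCircle) = 0 := hy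
    rw [hPval] at h2
    obtain ⟨k, hk⟩ := (H x).2 h2
    show g • (x : UnitAddCircle) = 0
    rw [nsmul_coe, coe_eq_zero]
    exact ⟨k, hk⟩

/-- The arithmetic set-up. -/
lemma setup {p q : ℕ} (hp : 1 < p) (hpq : p < q) :
    ∃ m n : ℕ, 1 ≤ m ∧ m < n ∧ m.Coprime n ∧ p = m * (p - 1).gcd (q - 1) + 1 ∧
      q = n * (p - 1).gcd (q - 1) + 1 := by
  set g := (p - 1).gcd (q - 1) with hg
  have hg0 : 0 < g := Nat.gcd_pos_of_pos_left _ (by omega)
  obtain ⟨m, hm⟩ : g ∣ p - 1 := Nat.gcd_dvd_left _ _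
  obtain ⟨n, hn⟩ : g ∣ q - 1 := Nat.gcd_dvd_right _ _
  have hco : m.Coprime n := by
    have h1 := Nat.coprime_div_gcd_div_gcd (m := p - 1) (n := q - 1) (hg ▸ hg0)
    rw [← hg] at h1
    rwa [hm, hn, Nat.mul_div_cancel_left _ hg0, Nat.mul_div_cancel_left _ hg0] at h1
  refine ⟨m, n, ?_, ?_, hco, ?_, ?_⟩
  · rcases Nat.eq_zero_or_pos m with h | h
    · rw [h, mul_zero] at hm; omega
    · exact h
  · by_contra hle
    push Not at hle
    have := Nat.mul_le_mul_left g hle
    omega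
  · rw [mul_comm]; omega
  · rw [mul_comm]; omega

lemma nsmul_eq_self_of {g m p : ℕ} (hp : p = m * g + 1) {x : UnitAddCircle} (hx : g • x = 0) :
    p • x = x := by
  rw [hp, add_nsmul, one_nsmul, mul_nsmul', hx, nsmul_zero, zero_add]

/-- **Main theorem, common fixed points maximise.** -/
theorem main (F : UnitAddCircle → ℝ) (hF : ContDiff ℝ 2 fun x : ℝ => F (x : UnitAddCircle))
    (x₀ : UnitAddCircle) (hmax : ∀ y, y ≠ x₀ → F y < F x₀)
    (hnd : deriv (deriv fun x : ℝ => F (x₀ + (x : UnitAddCircle))) 0 < 0) :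
    ∃ C : ℝ, ∀ p q : ℕ, 1 < p → p < q →
      C * (q : ℝ) ^ 5 ≤ (((p - 1).gcd (q - 1) : ℕ) : ℝ) ^ 6 →
      ∀ t : UnitAddCircle, ∃ z : UnitAddCircle, p • z = z ∧ q • z = z ∧
        ∀ μ : Measure UnitAddCircle, IsProbabilityMeasure μ →
          MeasurePreserving (fun x => p • x) μ μ → MeasurePreserving (fun x => q • x) μ μ →
          ∫ x, F (x - t) ∂μ ≤ F (z - t) ∧
            (∫ x, F (x - t) ∂μ = F (z - t) → ∀ᵐ x ∂μ, p • x = x ∧ q • x = x) := by
  obtain ⟨a, rfl⟩ := QuotientAddGroup.mk_surjective x₀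
  set G : UnitAddCircle → ℝ := fun y => F (((a : ℝ) : UnitAddCircle) + y) with hGdef
  set f : ℝ → ℝ := fun x => F (((a + x : ℝ)) : UnitAddCircle) with hf
  have hGf : ∀ x : ℝ, G (x : UnitAddCircle) = f x := by
    intro x; simp only [hGdef, hf, AddCircle.coe_add]
  have cf : ContDiff ℝ 2 f := hF.comp (contDiff_const.add contDiff_id)
  have pf : Function.Periodic f 1 := by
    intro x
    simp only [hf]
    congr 1
    rw [show a + (x + 1) = (a + x) + 1 by ring]
    exact AddCircle.coe_add_period 1 (a + x)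
  have hfmax : ∀ x : ℝ, (∀ k : ℤ, x ≠ (k : ℝ)) → f x < f 0 := by
    intro x hx
    have h1 : ((a + x : ℝ) : UnitAddCircle) ≠ ((a : ℝ) : UnitAddCircle) := by
      intro h
      rw [coe_eq_coe] at h
      obtain ⟨k, hk⟩ := h
      exact hx k (by linarith)
    have h2 := hmax _ h1
    simp only [hf, add_zero]
    exact h2
  have hfnd : deriv (deriv f) 0 < 0 := by
    have : f = fun x : ℝ => F ((QuotientAddGroup.mk a : UnitAddCircle) + (x : UnitAddCircle)) := by
      funext x; simp only [hf, AddCircle.coe_add]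
    rw [this]; exact hnd
  obtain ⟨K, κ, δ, N⟩ := nd_of_smooth cf pf hfmax hfnd
  have hK := N.hK
  have hκ := N.hκ
  have hδ := N.hδ
  set w := 1300 * K / κ with hw
  have hw0 : 0 < w := by positivity
  refine ⟨200000 + 4 * w + 2 * w / δ, fun p q hp hpq hC t => ?_⟩
  obtain ⟨m, n, hm, hmn, hco, hpe, hqe⟩ := setup hp hpq
  set g := (p - 1).gcd (q - 1) with hg
  have hg0 : 0 < g := Nat.gcd_pos_of_pos_left _ (by omega)
  have hgR : (0 : ℝ) < g := by exact_mod_cast hg0
  have hn1 : (1 : ℝ) ≤ n := by exact_mod_cast (by omega : 1 ≤ n)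
  have hCn : (200000 + 4 * w + 2 * w / δ) * (n : ℝ) ^ 5 ≤ g := by
    have h1 : (n : ℝ) * g ≤ q := by
      have : n * g ≤ q := by omega
      exact_mod_cast this
    have h2 : ((n : ℝ) * g) ^ 5 ≤ (q : ℝ) ^ 5 := pow_le_pow_left₀ (by positivity) h1 5
    have h3 : (200000 + 4 * w + 2 * w / δ) * ((n : ℝ) * g) ^ 5 ≤ (g : ℝ) ^ 6 :=
      (mul_le_mul_of_nonneg_left h2 (by positivity)).trans hC
    have h4 : ((200000 + 4 * w + 2 * w / δ) * (n : ℝ) ^ 5) * (g : ℝ) ^ 5 ≤ g * (g : ℝ) ^ 5 := by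
      calc ((200000 + 4 * w + 2 * w / δ) * (n : ℝ) ^ 5) * (g : ℝ) ^ 5
          = (200000 + 4 * w + 2 * w / δ) * ((n : ℝ) * g) ^ 5 := by ring
        _ ≤ (g : ℝ) ^ 6 := h3
        _ = g * (g : ℝ) ^ 5 := by ring
    exact le_of_mul_le_mul_right h4 (by positivity)
  have hn3 : (n : ℝ) ^ 3 ≤ (n : ℝ) ^ 5 := pow_le_pow_right₀ hn1 (by norm_num)
  have hn2 : (n : ℝ) ^ 2 ≤ (n : ℝ) ^ 5 := pow_le_pow_right₀ hn1 (by norm_num)
  have hn5 : 0 < (n : ℝ) ^ 5 := by positivity
  have hwd : 0 < 2 * w / δ := by positivity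
  have B : Big w δ n g := by
    refine ⟨?_, ?_, ?_⟩
    · nlinarith
    · nlinarith
    · have h1 : 2 * w / δ * (n : ℝ) ^ 5 ≤ g := by nlinarith
      have h2 : 2 * w * (n : ℝ) ^ 5 ≤ δ * g := by
        have := mul_le_mul_of_nonneg_left h1 hδ.le
        rw [show δ * (2 * w / δ * (n : ℝ) ^ 5) = 2 * w * (n : ℝ) ^ 5 by field_simp] at this
        exact this
      nlinarith
  -- the translate
  obtain ⟨s, hs⟩ := QuotientAddGroup.mk_surjective (t + ((a : ℝ) : UnitAddCircle))
  obtain ⟨k, hk⟩ := certified N hw hm hmn hco B hpe hqe s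
  have hst : ((s : ℝ) : UnitAddCircle) = t + ((a : ℝ) : UnitAddCircle) := hs
  have hGF : ∀ y : UnitAddCircle, G (y - ((s : ℝ) : UnitAddCircle)) = F (y - t) := by
    intro y
    simp only [hGdef, hst]
    congr 1
    abel
  have hgz : g • (((k : ℝ) / g : ℝ) : UnitAddCircle) = 0 := by
    rw [nsmul_coe, coe_eq_zero]
    exact ⟨k, by field_simp⟩
  refine ⟨(((k : ℝ) / g : ℝ) : UnitAddCircle), nsmul_eq_self_of hpe hgz, nsmul_eq_self_of hqe hgz,
    fun μ hμ hp' hq' => ?_⟩
  have h1 := bound_of_certified cf.continuous hGf pf hk hp' hq'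
  simp only [hGF] at h1
  have h2 : f ((k : ℝ) / g - s) = F ((((k : ℝ) / g : ℝ) : UnitAddCircle) - t) := by
    rw [← hGf, AddCircle.coe_sub, hGF]
  rw [h2] at h1
  refine ⟨h1.1, fun h => ?_⟩
  filter_upwards [h1.2 h] with x hx
  exact ⟨nsmul_eq_self_of hpe hx, nsmul_eq_self_of hqe hx⟩

end Pool.Agent.Y315.CF
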