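import Pool.Agent.Y315.CF.Cert

/-! # The certificate as a sum of two coboundaries -/

namespace Pool.Agent.Y315.CF

open Real

lemma cos_per (j : ℤ) (c : ℝ) : Function.Periodic (fun x : ℝ => cos (2 * π * j * (x - c))) 1 := by
  intro x
  have : 2 * π * j * (x + 1 - c) = 2 * π * j * (x - c) + j * (2 * π) := by ring
  simp only [this, cos_add_int_mul_two_pi]

/-- The trial functions. -/
noncomputable def U (a b c : ℝ) (n g : ℕ) (x : ℝ) : ℝ :=
  a * cos (2 * π * (1 : ℤ) * (x - 0)) + b * cos (2 * π * (n : ℤ) * (x - 0))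
    + c * cos (2 * π * (n : ℤ) * (x - 1 / g))

lemma U_per (a b c : ℝ) (n g : ℕ) : Function.Periodic (U a b c n g) 1 := by
  intro x
  have h1 : cos (2 * π * (1 : ℤ) * (x + 1 - 0)) = cos (2 * π * (1 : ℤ) * (x - 0)) := cos_per 1 0 x
  have h2 : cos (2 * π * (n : ℤ) * (x + 1 - 0)) = cos (2 * π * (n : ℤ) * (x - 0)) := cos_per n 0 x
  have h3 : cos (2 * π * (n : ℤ) * (x + 1 - 1 / g)) = cos (2 * π * (n : ℤ) * (x - 1 / g)) :=
    cos_per n (1 / g) x
  unfold U
  rw [h1, h2, h3]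

lemma U_cont (a b c : ℝ) (n g : ℕ) : Continuous (U a b c n g) := by
  unfold U; fun_prop

lemma U_identity (L B0 B1 κ : ℝ) (m n g : ℕ) (hg : (g : ℝ) ≠ 0) (x : ℝ) (p q : ℕ)
    (hp : p = m * g + 1) (hq : q = n * g + 1) :
    (U (κ * L) (-(κ * (B0 / (2 * π * (m * n) * D m n (2 * π / g) 1))))
        (-(κ * (B1 / (2 * π * (m * n) * D m n (2 * π / g) 1)))) n g x
      - U (κ * L) (-(κ * (B0 / (2 * π * (m * n) * D m n (2 * π / g) 1))))
        (-(κ * (B1 / (2 * π * (m * n) * D m n (2 * π / g) 1)))) n g (p * x))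
    + (U (κ * L) (κ * (B0 / (2 * π * (m * n) * D m n (2 * π / g) 1)))
        (κ * (B1 / (2 * π * (m * n) * D m n (2 * π / g) 1))) m g x
      - U (κ * L) (κ * (B0 / (2 * π * (m * n) * D m n (2 * π / g) 1)))
        (κ * (B1 / (2 * π * (m * n) * D m n (2 * π / g) 1))) m g (q * x))
    = κ * Zf m n (2 * π / g) L B0 B1 (g * x) := by
  subst hp hq
  unfold U Zf Psi
  generalize B0 / (2 * π * (m * n) * D m n (2 * π / g) 1) = c0
  generalize B1 / (2 * π * (m * n) * D m n (2 * π / g) 1) = c1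
  have e1 : 2 * π / g * (g * x) = 2 * π * (1 : ℤ) * (x - 0) := by push_cast; field_simp; ring
  have e2 : 2 * π / g * (g * x) + 2 * π * (m * (g * x))
      = 2 * π * (1 : ℤ) * (((m * g + 1 : ℕ) : ℝ) * x - 0) := by push_cast; field_simp; ring
  have e3 : 2 * π / g * (g * x) + 2 * π * (n * (g * x))
      = 2 * π * (1 : ℤ) * (((n * g + 1 : ℕ) : ℝ) * x - 0) := by push_cast; field_simp; ring
  have e4 : ∀ r : ℕ, (r : ℝ) * (2 * π / g) * (g * x) = 2 * π * (r : ℤ) * (x - 0) := by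
    intro r; push_cast; field_simp; ring
  have e5 : ∀ r : ℕ, (r : ℝ) * (2 * π / g) * (g * x - 1) = 2 * π * (r : ℤ) * (x - 1 / g) := by
    intro r; push_cast; field_simp
  have e6 : 2 * π * (m : ℤ) * (x - 0) + 2 * π * (m * n * (g * x))
      = 2 * π * (m : ℤ) * (((n * g + 1 : ℕ) : ℝ) * x - 0) := by push_cast; ring
  have e7 : 2 * π * (n : ℤ) * (x - 0) + 2 * π * (m * n * (g * x))
      = 2 * π * (n : ℤ) * (((m * g + 1 : ℕ) : ℝ) * x - 0) := by push_cast; ring
  have e8 : 2 * π * (m : ℤ) * (x - 1 / g) + 2 * π * (m * n * (g * x))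
      = 2 * π * (m : ℤ) * (((n * g + 1 : ℕ) : ℝ) * x - 1 / g) := by push_cast; ring
  have e9 : 2 * π * (n : ℤ) * (x - 1 / g) + 2 * π * (m * n * (g * x))
      = 2 * π * (n : ℤ) * (((m * g + 1 : ℕ) : ℝ) * x - 1 / g) := by push_cast; ring
  rw [e2, e3, e1, e4 m, e4 n, e5 m, e5 n, e6, e7, e8, e9]
  ring

lemma per_nat {f : ℝ → ℝ} (hf : Function.Periodic f 1) (p : ℕ) (x : ℝ) (k : ℤ) :
    f (p * x) = f (p * (x - k)) := by
  have : (p : ℝ) * (x - k) = p * x - ((p * k : ℤ) : ℝ) * 1 := by push_cast; ring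
  rw [this, hf.sub_int_mul_eq]

/-- **The dual certificate.** -/
theorem cert {F : ℝ → ℝ} {K κ δ w t : ℝ} {m n g : ℕ} (A : Data F K κ δ w m n g t) (p q : ℕ)
    (hp : p = m * g + 1) (hq : q = n * g + 1) :
    ∃ u v : ℝ → ℝ, Continuous u ∧ Continuous v ∧ Function.Periodic u 1 ∧ Function.Periodic v 1 ∧
      ∀ x : ℝ, 0 ≤ (F (-t) - F (x - t)) + (u x - u (p * x)) + (v x - v (q * x)) ∧
        ((F (-t) - F (x - t)) + (u x - u (p * x)) + (v x - v (q * x)) = 0 →
          ∃ k : ℤ, (g : ℝ) * x = k) := by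
  have hg := A.g0
  have hK := A.N.hK
  set B0 := -deriv F (1 / g - t) * g / K
    + 20 * (n : ℝ) ^ 4 * (sin (2 * π / g) * (2 * π * (m + n))) with hB0
  set B1 := deriv F (-t) * g / K with hB1
  refine ⟨U (K / g ^ 2 * (20 * (n : ℝ) ^ 4))
      (-(K / g ^ 2 * (B0 / (2 * π * (m * n) * D m n (2 * π / g) 1))))
      (-(K / g ^ 2 * (B1 / (2 * π * (m * n) * D m n (2 * π / g) 1)))) n g,
    U (K / g ^ 2 * (20 * (n : ℝ) ^ 4))
      (K / g ^ 2 * (B0 / (2 * π * (m * n) * D m n (2 * π / g) 1)))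
      (K / g ^ 2 * (B1 / (2 * π * (m * n) * D m n (2 * π / g) 1))) m g,
    U_cont _ _ _ _ _, U_cont _ _ _ _ _, U_per _ _ _ _ _, U_per _ _ _ _ _, fun x => ?_⟩
  set k := round x with hk
  set y := x - k with hy
  have hy2 : |y| ≤ 1 / 2 := abs_sub_round x
  have key : ∀ a b c (n : ℕ), U a b c n g x = U a b c n g y := by
    intro a b c n
    have := per_nat (U_per a b c n g) 1 x k
    simpa using this
  have key2 : ∀ a b c (n p : ℕ), U a b c n g (p * x) = U a b c n g (p * y) := fun a b c n p =>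
    per_nat (U_per a b c n g) p x k
  have keyF : F (x - t) = F (y - t) := by
    have e : y - t = (x - t) - ((k : ℤ) : ℝ) * 1 := by rw [hy]; ring
    rw [e, A.N.per.sub_int_mul_eq]
  simp only [key, key2]
  rw [keyF]
  have id := U_identity (20 * (n : ℝ) ^ 4) B0 B1 (K / g ^ 2) m n g hg.ne' y p q hp hq
  rw [add_assoc, id]
  have hs : |(g : ℝ) * y| ≤ g / 2 := by
    rw [abs_mul, abs_of_pos hg]
    have := mul_le_mul_of_nonneg_left hy2 hg.le
    linarith
  have P := A.pos hs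
  have e : F (-t) - F (y - t) = K / g ^ 2 * phi F K t g (g * y) := by
    unfold phi
    rw [show (g : ℝ) * y / g = y by field_simp]
    field_simp
  have hc : 0 < K / (g : ℝ) ^ 2 := by positivity
  rw [e, ← mul_add]
  refine ⟨mul_nonneg hc.le P.1, fun h0 => ?_⟩
  rcases P.2 ((mul_eq_zero.1 h0).resolve_left hc.ne') with h1 | h1
  · refine ⟨g * k, ?_⟩
    push_cast
    have : (g : ℝ) * x = g * y + g * k := by rw [hy]; ring
    rw [this, h1]; ring
  · refine ⟨g * k + 1, ?_⟩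
    push_cast
    have : (g : ℝ) * x = g * y + g * k := by rw [hy]; ring
    rw [this, h1]; ring

end Pool.Agent.Y315.CF
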