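import Pool.Agent.Y315.CF.Circle

/-! # The set of first Fourier coefficients -/

namespace Pool.Agent.Y315.CF

open MeasureTheory

/-- `cos (2 π x)` on the circle. -/
noncomputable def cosC (y : UnitAddCircle) : ℝ := (fourier 1 y).re

lemma fourier_one_coe (x : ℝ) :
    fourier 1 (x : UnitAddCircle) = Complex.exp (2 * Real.pi * x * Complex.I) := by
  rw [fourier_coe_apply]
  congr 1
  push_cast
  ring

lemma cosC_coe (x : ℝ) : cosC (x : UnitAddCircle) = Real.cos (2 * Real.pi * x) := by
  unfold cosC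
  rw [fourier_one_coe]
  have : (2 * Real.pi * x * Complex.I : ℂ) = ((2 * Real.pi * x : ℝ) : ℂ) * Complex.I := by
    push_cast; ring
  rw [this, Complex.exp_ofReal_mul_I_re]

lemma cosC_smooth : ContDiff ℝ 2 fun x : ℝ => cosC (x : UnitAddCircle) := by
  have : (fun x : ℝ => cosC (x : UnitAddCircle)) = fun x => Real.cos (2 * Real.pi * x) :=
    funext cosC_coe
  rw [this]
  fun_prop

lemma cosC_max (y : UnitAddCircle) (hy : y ≠ 0) : cosC y < cosC 0 := by
  obtain ⟨x, rfl⟩ := QuotientAddGroup.mk_surjective y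
  have h0 : cosC 0 = 1 := by
    have := cosC_coe 0
    simpa using this
  have h1 : cosC ((QuotientAddGroup.mk x : UnitAddCircle)) = Real.cos (2 * Real.pi * x) :=
    cosC_coe x
  rw [h0, h1]
  refine lt_of_le_of_ne (Real.cos_le_one _) fun h => hy ?_
  rw [Real.cos_eq_one_iff] at h
  obtain ⟨k, hk⟩ := h
  have : x = k := by
    have hpi := Real.pi_pos
    have : 2 * Real.pi * (x - k) = 0 := by linarith
    have h2 := (mul_eq_zero.1 this).resolve_left (by positivity)
    linarith
  exact coe_eq_zero.2 ⟨k, this⟩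

lemma cosC_nd : deriv (deriv fun x : ℝ => cosC ((0 : UnitAddCircle) + (x : UnitAddCircle))) 0 < 0 := by
  have e : (fun x : ℝ => cosC ((0 : UnitAddCircle) + (x : UnitAddCircle)))
      = fun x => Real.cos (2 * Real.pi * x) := by
    funext x; rw [zero_add, cosC_coe]
  rw [e]
  have d1 : deriv (fun x : ℝ => Real.cos (2 * Real.pi * x))
      = fun x => -Real.sin (2 * Real.pi * x) * (2 * Real.pi) := by
    funext x
    have h1 : HasDerivAt (fun x : ℝ => 2 * Real.pi * x) (2 * Real.pi) x := by
      simpa using (hasDerivAt_id x).const_mul (2 * Real.pi)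
    exact (h1.cos).deriv
  rw [d1]
  have h1 : HasDerivAt (fun x : ℝ => 2 * Real.pi * x) (2 * Real.pi) 0 := by
    simpa using (hasDerivAt_id (0 : ℝ)).const_mul (2 * Real.pi)
  have h2 := (h1.sin.neg.mul_const (2 * Real.pi)).deriv
  have h3 : deriv (fun x : ℝ => -Real.sin (2 * Real.pi * x) * (2 * Real.pi)) 0
      = -(Real.cos (2 * Real.pi * 0) * (2 * Real.pi)) * (2 * Real.pi) := h2
  rw [h3]
  simp only [mul_zero, Real.cos_zero, one_mul]
  have := Real.pi_pos
  nlinarith

/-- The coefficients attained by invariant probability measures. -/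
def Coef (p q : ℕ) : Set ℂ :=
  {c | ∃ μ : Measure UnitAddCircle, IsProbabilityMeasure μ ∧
    MeasurePreserving (fun x => p • x) μ μ ∧ MeasurePreserving (fun x => q • x) μ μ ∧
    c = ∫ x, fourier 1 x ∂μ}

lemma fourier_integrable (μ : Measure UnitAddCircle) [IsFiniteMeasure μ] (k : ℤ) :
    Integrable (fun x : UnitAddCircle => fourier k x) μ :=
  (ContinuousMap.continuous _).integrable_of_hasCompactSupport
    (HasCompactSupport.of_compactSpace _)

lemma coef_convex (p q : ℕ) : Convex ℝ (Coef p q) := by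
  rintro c₁ ⟨μ₁, P₁, hp₁, hq₁, rfl⟩ c₂ ⟨μ₂, P₂, hp₂, hq₂, rfl⟩ a b ha hb hab
  have hmp : ∀ r : ℕ, MeasurePreserving (fun x : UnitAddCircle => r • x) μ₁ μ₁ →
      MeasurePreserving (fun x : UnitAddCircle => r • x) μ₂ μ₂ →
      MeasurePreserving (fun x : UnitAddCircle => r • x)
        (ENNReal.ofReal a • μ₁ + ENNReal.ofReal b • μ₂)
        (ENNReal.ofReal a • μ₁ + ENNReal.ofReal b • μ₂) := by
    intro r h1 h2
    refine ⟨h1.measurable, ?_⟩
    rw [Measure.map_add _ _ h1.measurable, Measure.map_smul, Measure.map_smul, h1.map_eq,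
      h2.map_eq]
  refine ⟨ENNReal.ofReal a • μ₁ + ENNReal.ofReal b • μ₂, ⟨?_⟩, hmp p hp₁ hp₂, hmp q hq₁ hq₂, ?_⟩
  · rw [Measure.add_apply, Measure.smul_apply, Measure.smul_apply, measure_univ, measure_univ,
      smul_eq_mul, smul_eq_mul, mul_one, mul_one, ← ENNReal.ofReal_add ha hb, hab,
      ENNReal.ofReal_one]
  · rw [integral_add_measure, integral_smul_measure, integral_smul_measure,
      ENNReal.toReal_ofReal ha, ENNReal.toReal_ofReal hb]
    · exact (fourier_integrable μ₁ 1).smul_measure ENNReal.ofReal_ne_top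
    · exact (fourier_integrable μ₂ 1).smul_measure ENNReal.ofReal_ne_top

lemma fourier_nsmul' (g : ℕ) (y : UnitAddCircle) :
    (fourier 1 (g • y) : ℂ) = (fourier 1 y : ℂ) ^ g := by
  obtain ⟨x, rfl⟩ := QuotientAddGroup.mk_surjective y
  have h1 : (fourier 1 (g • (x : UnitAddCircle)) : ℂ) = (fourier 1 (x : UnitAddCircle) : ℂ) ^ g := by
    rw [nsmul_coe, fourier_one_coe, fourier_one_coe, ← Complex.exp_nat_mul]
    congr 1; push_cast; ring
  exact h1

lemma fourier_eq_one {y : UnitAddCircle} (h : (fourier 1 y : ℂ) = 1) : y = 0 := by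
  obtain ⟨x, rfl⟩ := QuotientAddGroup.mk_surjective y
  have h1 : (fourier 1 (x : UnitAddCircle) : ℂ) = 1 := h
  rw [fourier_one_coe, Complex.exp_eq_one_iff] at h1
  obtain ⟨k, hk⟩ := h1
  refine coe_eq_zero.2 ⟨k, ?_⟩
  have hpi : (Real.pi : ℂ) ≠ 0 := by exact_mod_cast Real.pi_ne_zero
  have : (x : ℂ) = k := by
    have hI := Complex.I_ne_zero
    have h2 : (2 * Real.pi * Complex.I : ℂ) * (x - k) = 0 := by linear_combination hk
    have h3 := (mul_eq_zero.1 h2).resolve_left (by simp [hpi, hI])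
    linear_combination h3
  exact_mod_cast this

lemma exists_angle {z : ℂ} (hz : ‖z‖ = 1) : ∃ y : UnitAddCircle, (fourier 1 y : ℂ) = z := by
  refine ⟨((Complex.arg z / (2 * Real.pi) : ℝ) : UnitAddCircle), ?_⟩
  rw [fourier_one_coe]
  have h1 := Complex.norm_mul_exp_arg_mul_I z
  rw [hz] at h1
  have h2 : (2 * Real.pi * ((Complex.arg z / (2 * Real.pi) : ℝ) : ℂ) * Complex.I : ℂ)
      = Complex.arg z * Complex.I := by
    have hpi : (Real.pi : ℂ) ≠ 0 := by exact_mod_cast Real.pi_ne_zero
    push_cast; field_simp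
  rw [h2]
  simpa using h1

/-- Dirac measures at common fixed points. -/
lemma root_mem {p q m n g : ℕ} (hg : g ≠ 0) (hp : p = m * g + 1) (hq : q = n * g + 1) {z : ℂ}
    (hz : z ^ g = 1) : z ∈ Coef p q := by
  have hn : ‖z‖ = 1 := by
    have := congrArg norm hz
    rw [norm_pow, norm_one] at this
    exact (pow_eq_one_iff_of_nonneg (norm_nonneg z) hg).1 this
  obtain ⟨y, hy⟩ := exists_angle hn
  have hgy : g • y = 0 := fourier_eq_one (by rw [fourier_nsmul', hy, hz])
  have hmp : ∀ r : ℕ, r • y = y →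
      MeasurePreserving (fun x : UnitAddCircle => r • x) (Measure.dirac y) (Measure.dirac y) := by
    intro r hr
    have hm : Measurable (fun x : UnitAddCircle => r • x) := (continuous_nsmul r).measurable
    refine ⟨hm, ?_⟩
    rw [Measure.map_dirac' hm, hr]
  refine ⟨Measure.dirac y, inferInstance, hmp p (nsmul_eq_self_of hp hgy),
    hmp q (nsmul_eq_self_of hq hgy), ?_⟩
  rw [integral_dirac, hy]

/-- A real linear functional on the unit circle is a translated cosine. -/
lemma functional_form (L : ℂ →L[ℝ] ℝ) : ∃ (r : ℝ) (t : UnitAddCircle), 0 ≤ r ∧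
    ∀ y : UnitAddCircle, L (fourier 1 y) = r * cosC (y - t) := by
  set w : ℂ := ⟨L 1, L Complex.I⟩ with hw
  have hL : ∀ z : ℂ, L z = (z * (starRingEnd ℂ) w).re := by
    intro z
    have h1 : z = z.re • (1 : ℂ) + z.im • Complex.I := by
      apply Complex.ext <;> simp
    have h2 : L z = z.re * L 1 + z.im * L Complex.I := by
      conv_lhs => rw [h1]
      rw [map_add, map_smul, map_smul, smul_eq_mul, smul_eq_mul]
    rw [h2]
    simp [Complex.mul_re, hw]
  by_cases h0 : w = 0
  · refine ⟨0, 0, le_rfl, fun y => ?_⟩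
    rw [hL, h0]; simp
  · have hn : ‖w‖ ≠ 0 := by simpa using h0
    obtain ⟨t, ht⟩ := exists_angle (z := w / ‖w‖) (by
      rw [norm_div, Complex.norm_real, norm_norm, div_self hn])
    refine ⟨‖w‖, t, norm_nonneg _, fun y => ?_⟩
    have hw2 : w = ‖w‖ * (fourier 1 t : ℂ) := by
      rw [ht, mul_div_cancel₀]
      exact_mod_cast hn
    have h3 : (fourier 1 (y - t) : ℂ) = fourier 1 y * (starRingEnd ℂ) (fourier 1 t) := by
      obtain ⟨a, rfl⟩ := QuotientAddGroup.mk_surjective y
      obtain ⟨b, rfl⟩ := QuotientAddGroup.mk_surjective t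
      have h4 : (fourier 1 ((a : UnitAddCircle) - (b : UnitAddCircle)) : ℂ)
          = fourier 1 (a : UnitAddCircle) * (starRingEnd ℂ) (fourier 1 (b : UnitAddCircle)) := by
        rw [← AddCircle.coe_sub, fourier_one_coe, fourier_one_coe, fourier_one_coe,
          ← Complex.exp_conj, ← Complex.exp_add]
        congr 1
        have e : (2 * Real.pi * b * Complex.I : ℂ) = ((2 * Real.pi * b : ℝ) : ℂ) * Complex.I := by
          push_cast; ring
        rw [e, map_mul, Complex.conj_ofReal, Complex.conj_I]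
        push_cast; ring
      exact h4
    rw [hL]
    conv_lhs => rw [hw2]
    rw [map_mul, Complex.conj_ofReal]
    unfold cosC
    rw [h3]
    rw [show (fourier 1 y : ℂ) * (‖w‖ * (starRingEnd ℂ) (fourier 1 t))
      = ‖w‖ * (fourier 1 y * (starRingEnd ℂ) (fourier 1 t)) by ring, Complex.re_ofReal_mul]

/-- **The set of first Fourier coefficients is the polygon of the common fixed points.** -/
theorem polygon : ∃ C : ℝ, ∀ p q : ℕ, 1 < p → p < q →
    C * (q : ℝ) ^ 5 ≤ (((p - 1).gcd (q - 1) : ℕ) : ℝ) ^ 6 →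
    Coef p q = convexHull ℝ {z : ℂ | z ^ (p - 1).gcd (q - 1) = 1} := by
  obtain ⟨C, hC⟩ := main cosC cosC_smooth 0 cosC_max cosC_nd
  refine ⟨C, fun p q hp hpq hg => ?_⟩
  obtain ⟨m, n, hm, hmn, hco, hpe, hqe⟩ := setup hp hpq
  have key := hC p q hp hpq hg
  set g := (p - 1).gcd (q - 1) with hgdef
  have hg0 : g ≠ 0 := (Nat.gcd_pos_of_pos_left _ (by omega)).ne'
  apply Set.Subset.antisymm
  · rintro c ⟨μ, hμ, hμp, hμq, rfl⟩
    by_contra hc
    have hfin : Set.Finite {z : ℂ | z ^ g = 1} := by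
      have : {z : ℂ | z ^ g = 1} ⊆ ((Polynomial.nthRoots g (1 : ℂ)).toFinset : Set ℂ) := by
        intro z hz
        simp only [Finset.mem_coe, Multiset.mem_toFinset]
        rw [Polynomial.mem_nthRoots (Nat.pos_of_ne_zero hg0)]
        exact hz
      exact (Finset.finite_toSet _).subset this
    obtain ⟨L, u, hL1, hL2⟩ := geometric_hahn_banach_closed_point (convex_convexHull ℝ _)
      (Set.Finite.isClosed_convexHull ℝ hfin) hc
    obtain ⟨r, t, hr, hrt⟩ := functional_form L
    obtain ⟨z, hpz, hqz, hz⟩ := key t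
    have h1 := (hz μ hμ hμp hμq).1
    have h2 : L (∫ x, fourier 1 x ∂μ) = r * ∫ x, cosC (x - t) ∂μ := by
      rw [← ContinuousLinearMap.integral_comp_comm L (fourier_integrable μ 1)]
      rw [← integral_const_mul]
      exact integral_congr_ae (Filter.Eventually.of_forall hrt)
    have h3 : L (fourier 1 z) < u := by
      apply hL1
      apply subset_convexHull
      show (fourier 1 z : ℂ) ^ g = 1
      rw [← fourier_nsmul']
      -- `g • z = 0`
      have e1 : (p - 1) • z = 0 := by
        have : (p - 1) • z + z = z := by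
          rw [← succ_nsmul, Nat.sub_add_cancel (by omega)]; exact hpz
        simpa using this
      have e2 : (q - 1) • z = 0 := by
        have : (q - 1) • z + z = z := by
          rw [← succ_nsmul, Nat.sub_add_cancel (by omega)]; exact hqz
        simpa using this
      have e3 : g • z = 0 := by
        have d1 := addOrderOf_dvd_of_nsmul_eq_zero e1
        have d2 := addOrderOf_dvd_of_nsmul_eq_zero e2
        exact (addOrderOf_dvd_iff_nsmul_eq_zero).1 (Nat.dvd_gcd d1 d2)
      rw [e3]
      simp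
    rw [h2] at hL2
    rw [hrt] at h3
    have := mul_le_mul_of_nonneg_left h1 hr
    linarith
  · apply convexHull_min _ (coef_convex p q)
    intro z hz
    exact root_mem hg0 hpe hqe hz

end Pool.Agent.Y315.CF
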