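import Pool.Agent.Y315.CF.Smooth

/-! # The certificate for arbitrary translates, on the real line -/

namespace Pool.Agent.Y315.CF

open Real

/-- The pointwise certificate property. -/
def Certified (f : ℝ → ℝ) (p q g : ℕ) (M T : ℝ) : Prop :=
  ∃ u v : ℝ → ℝ, Continuous u ∧ Continuous v ∧ Function.Periodic u 1 ∧ Function.Periodic v 1 ∧
    ∀ x : ℝ, 0 ≤ (M - f (x - T)) + (u x - u (p * x)) + (v x - v (q * x)) ∧
      ((M - f (x - T)) + (u x - u (p * x)) + (v x - v (q * x)) = 0 → ∃ k : ℤ, (g : ℝ) * x = k)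

lemma Certified.neg {f : ℝ → ℝ} {p q g : ℕ} {M T : ℝ}
    (h : Certified (fun x => f (-x)) p q g M T) : Certified f p q g M (-T) := by
  obtain ⟨u, v, hu, hv, pu, pv, H⟩ := h
  refine ⟨fun x => u (-x), fun x => v (-x), hu.comp continuous_neg, hv.comp continuous_neg,
    ?_, ?_, fun x => ?_⟩
  · intro x
    have := pu (-(x + 1))
    show u (-(x + 1)) = u (-x)
    rw [← this]; congr 1; ring
  · intro x
    have := pv (-(x + 1))
    show v (-(x + 1)) = v (-x)
    rw [← this]; congr 1; ring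
  · have := H (-x)
    simp only at this ⊢
    rw [show -(-x - T) = x - -T by ring, show (p : ℝ) * -x = -(p * x) by ring,
      show (q : ℝ) * -x = -(q * x) by ring] at this
    refine ⟨this.1, fun h0 => ?_⟩
    obtain ⟨k, hk⟩ := this.2 h0
    exact ⟨-k, by push_cast; linarith⟩

/-- Translation by a common fixed point. -/
lemma Certified.shift {f : ℝ → ℝ} {p q g m n : ℕ} {M T : ℝ} (hg : (g : ℝ) ≠ 0)
    (hp : p = m * g + 1) (hq : q = n * g + 1) (k : ℤ)
    (h : Certified f p q g M T) : Certified f p q g M (T + k / g) := by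
  obtain ⟨u, v, hu, hv, pu, pv, H⟩ := h
  refine ⟨fun x => u (x - k / g), fun x => v (x - k / g), by fun_prop, by fun_prop,
    ?_, ?_, fun x => ?_⟩
  · intro x
    show u (x + 1 - k / g) = u (x - k / g)
    rw [show x + 1 - (k : ℝ) / g = (x - k / g) + 1 by ring, pu]
  · intro x
    show v (x + 1 - k / g) = v (x - k / g)
    rw [show x + 1 - (k : ℝ) / g = (x - k / g) + 1 by ring, pv]
  · have := H (x - k / g)
    simp only
    have e1 : u (p * (x - k / g)) = u (p * x - k / g) := by
      rw [show (p : ℝ) * (x - k / g) = (p * x - k / g) - ((m * k : ℤ) : ℝ) * 1 by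
        rw [hp]; push_cast; field_simp; ring, pu.sub_int_mul_eq]
    have e2 : v (q * (x - k / g)) = v (q * x - k / g) := by
      rw [show (q : ℝ) * (x - k / g) = (q * x - k / g) - ((n * k : ℤ) : ℝ) * 1 by
        rw [hq]; push_cast; field_simp; ring, pv.sub_int_mul_eq]
    rw [e1, e2, show x - k / g - T = x - (T + k / g) by ring] at this
    refine ⟨this.1, fun h0 => ?_⟩
    obtain ⟨j, hj⟩ := this.2 h0
    refine ⟨j + k, ?_⟩
    have : (g : ℝ) * (x - k / g) = g * x - k := by field_simp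
    push_cast
    linarith

lemma Certified.int_shift {f : ℝ → ℝ} (pf : Function.Periodic f 1) {p q g : ℕ} {M T : ℝ} (k : ℤ)
    (h : Certified f p q g M T) : Certified f p q g M (T + k) := by
  obtain ⟨u, v, hu, hv, pu, pv, H⟩ := h
  refine ⟨u, v, hu, hv, pu, pv, fun x => ?_⟩
  have := H x
  rwa [show f (x - (T + k)) = f (x - T) by
    rw [show x - (T + k) = (x - T) - (k : ℝ) * 1 by ring, pf.sub_int_mul_eq]]

/-- The parameter `t` of the best fixed point is small. -/
lemma small_t {f : ℝ → ℝ} {K κ δ w T : ℝ} {n g : ℕ} (N : Nd f K κ δ) (hw : w = 1300 * K / κ)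
    (hn : 2 ≤ n) (G : Big w δ n g) (hT : |T| ≤ 1 / 2)
    (hmax : ∀ j : ℤ, f (j / g - T) ≤ f (-T)) : g * |T| ≤ 51 / 100 := by
  have hK := N.hK
  have hκ := N.hκ
  have hn2 : (2 : ℝ) ≤ n := by exact_mod_cast hn
  have hw1 : 1300 ≤ w := by
    rw [hw, le_div_iff₀ hκ]; nlinarith [N.hκK]
  have hg1 : (1000000 : ℝ) ≤ g := by
    have h1 := G.g1
    have h3 : (2 : ℝ) ^ 5 ≤ (n : ℝ) ^ 5 := pow_le_pow_left₀ (by norm_num) hn2 5
    norm_num at h3
    linarith
  have hg0 : (0 : ℝ) < g := by linarith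
  have hwg : w ≤ δ * g := by
    have h1 := G.g3
    have : 1 ≤ 2 * (n : ℝ) ^ 2 := by nlinarith
    nlinarith
  set j := round ((g : ℝ) * T)
  have hj : |(g : ℝ) * T - j| ≤ 1 / 2 := abs_sub_round _
  have hy : |(j : ℝ) / g - T| ≤ 1 / 2 / g := by
    rw [show (j : ℝ) / g - T = (j - g * T) / g by field_simp, abs_div, abs_of_pos hg0,
      abs_sub_comm]
    exact div_le_div_of_nonneg_right hj hg0.le
  have hyδ : |(j : ℝ) / g - T| ≤ δ := by
    refine hy.trans ?_
    rw [div_le_iff₀ hg0]; linarith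
  have h1 := N.low _ hyδ
  have h2 := hmax j
  have hsq : ((j : ℝ) / g - T) ^ 2 ≤ (1 / 2 / g) ^ 2 := by
    rw [← sq_abs]; exact pow_le_pow_left₀ (abs_nonneg _) hy 2
  have h3 : f 0 - f (-T) ≤ 101 / 200 * K * (1 / 2 / g) ^ 2 := by
    have := mul_le_mul_of_nonneg_left hsq (by positivity : 0 ≤ 101 / 200 * K)
    linarith
  have h4 := N.far (-T) (by rw [abs_neg]; linarith)
  -- first rough bound
  have hTδ : |T| ≤ δ := by
    have h5 : κ * T ^ 2 ≤ 101 / 200 * K * (1 / 2 / g) ^ 2 := by nlinarith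
    have h6 : (g * |T|) ^ 2 ≤ w ^ 2 := by
      have e1 : K = κ * w / 1300 := by rw [hw]; field_simp
      rw [e1] at h5
      have e2 : 101 / 200 * (κ * w / 1300) * (1 / 2 / (g : ℝ)) ^ 2
          = κ * (101 / 1040000 * w / g ^ 2) := by field_simp; norm_num
      rw [e2] at h5
      have h7 := le_of_mul_le_mul_left h5 hκ
      rw [le_div_iff₀ (by positivity)] at h7
      rw [mul_pow, sq_abs]
      nlinarith
    have h8 : g * |T| ≤ w := by
      exact (sq_le_sq₀ (by positivity) (by linarith)).1 h6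
    have : |T| * g ≤ δ * g := by linarith
    exact le_of_mul_le_mul_right this hg0
  have hd0 : deriv f 0 = 0 := by
    have := N.der 0 (by simpa using N.hδ.le)
    simpa using this
  have h5 := N.tan 0 (-T) (by simpa using N.hδ.le) (by rwa [abs_neg])
  rw [hd0] at h5
  have h6 : 99 / 200 * K * T ^ 2 ≤ 101 / 200 * K * (1 / 2 / g) ^ 2 := by nlinarith
  have h7 : 99 / 200 * T ^ 2 ≤ 101 / 200 * (1 / 2 / g) ^ 2 := by
    have : K * (99 / 200 * T ^ 2) ≤ K * (101 / 200 * (1 / 2 / g) ^ 2) := by linarith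
    exact le_of_mul_le_mul_left this hK
  have h8 : (g * |T|) ^ 2 ≤ (51 / 100) ^ 2 := by
    rw [mul_pow, sq_abs]
    have e : (1 / 2 / (g : ℝ)) ^ 2 = 1 / 4 / g ^ 2 := by field_simp; norm_num
    rw [e] at h7
    have h9 : T ^ 2 ≤ (101 / 396) / g ^ 2 := by
      have : 101 / 200 * (1 / 4 / (g : ℝ) ^ 2) = 99 / 200 * ((101 / 396) / g ^ 2) := by ring
      rw [this] at h7
      linarith
    rw [le_div_iff₀ (by positivity)] at h9
    nlinarith
  exact (sq_le_sq₀ (by positivity) (by norm_num)).1 h8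

/-- **Certificate for every translate.** -/
theorem certified {f : ℝ → ℝ} {K κ δ w : ℝ} {m n p q g : ℕ} (N : Nd f K κ δ)
    (hw : w = 1300 * K / κ) (hm : 1 ≤ m) (hmn : m < n) (hco : m.Coprime n) (G : Big w δ n g)
    (hp : p = m * g + 1) (hq : q = n * g + 1) (T : ℝ) :
    ∃ k : ℤ, Certified f p q g (f (k / g - T)) T := by
  have hn2 : (2 : ℝ) ≤ n := by exact_mod_cast (by omega : 2 ≤ n)
  have hg1 : (1000000 : ℝ) ≤ g := by
    have h1 := G.g1
    have h3 : (2 : ℝ) ^ 5 ≤ (n : ℝ) ^ 5 := pow_le_pow_left₀ (by norm_num) hn2 5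
    norm_num at h3
    linarith
  have hg0 : (0 : ℝ) < g := by linarith
  have hgN : 0 < g := by exact_mod_cast hg0
  -- best fixed point
  obtain ⟨i, -, hi⟩ := Finset.exists_max_image (Finset.range g)
    (fun i : ℕ => f ((i : ℝ) / g - T)) ⟨0, Finset.mem_range.2 hgN⟩
  have hbest : ∀ j : ℤ, f ((j : ℝ) / g - T) ≤ f ((i : ℝ) / g - T) := by
    intro j
    have h1 : (0 : ℤ) ≤ j % g := Int.emod_nonneg _ (by exact_mod_cast hgN.ne')
    have h2 : j % g < g := Int.emod_lt_of_pos _ (by exact_mod_cast hgN)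
    obtain ⟨r, hr⟩ := Int.eq_ofNat_of_zero_le h1
    have h3 : r < g := by rw [hr] at h2; exact_mod_cast h2
    have h4 := hi r (Finset.mem_range.2 h3)
    have h5 : f ((j : ℝ) / g - T) = f ((r : ℝ) / g - T) := by
      have e : (j : ℝ) = g * ((j / g : ℤ) : ℝ) + r := by
        have := Int.mul_ediv_add_emod j g
        rw [hr] at this
        have h6 : ((((g : ℤ) * (j / g) + (r : ℤ)) : ℤ) : ℝ) = (j : ℝ) := by exact_mod_cast this
        rw [← h6]; push_cast; ring
      rw [show (j : ℝ) / g - T = ((r : ℝ) / g - T) + ((j / g : ℤ) : ℝ) * 1 by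
        rw [e]; field_simp; ring]
      exact (N.per.int_mul (j / g)) _
    rw [h5]; exact h4
  refine ⟨i, ?_⟩
  set T1 := T - i / g with hT1
  set r := round T1
  set T2 := T1 - r with hT2
  have hT2' : |T2| ≤ 1 / 2 := abs_sub_round _
  have hf : ∀ y, f (y - T2) = f (y + i / g - T) := by
    intro y
    rw [show y - T2 = (y + i / g - T) + (r : ℝ) * 1 by rw [hT2, hT1]; ring]
    exact (N.per.int_mul r) _
  have hmax : ∀ j : ℤ, f (j / g - T2) ≤ f (-T2) := by
    intro j
    have h1 := hbest (j + i)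
    have h2 := hf 0
    rw [zero_sub, zero_add] at h2
    rw [h2, hf]
    rw [show (j : ℝ) / g + i / g - T = ((j + i : ℤ) : ℝ) / g - T by push_cast; ring]
    exact h1
  have hsm := small_t N hw (by omega) G hT2' hmax
  have hval : f ((((i : ℕ) : ℤ) : ℝ) / g - T) = f (-T2) := by
    have h2 := hf 0
    rw [zero_sub, zero_add] at h2
    rw [h2]; push_cast; rfl
  rw [hval]
  have base : Certified f p q g (f (-T2)) T2 := by
    rcases le_total 0 T2 with h | h
    · have A : Data f K κ δ w m n g T2 :=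
        ⟨N, hw, hm, hmn, hco, G, h, by rwa [abs_of_nonneg h] at hsm, by
          have := hmax 1; simpa using this⟩
      exact cert A p q hp hq
    · have A : Data (fun x => f (-x)) K κ δ w m n g (-T2) :=
        ⟨N.neg, hw, hm, hmn, hco, G, by linarith, by rwa [abs_of_nonpos h] at hsm, by
          have := hmax (-1)
          show f (-(1 / (g : ℝ) - -T2)) ≤ f (-(-(-T2)))
          rw [show -(1 / (g : ℝ) - -T2) = ((-1 : ℤ) : ℝ) / g - T2 by push_cast; ring,
            show -(-(-T2)) = -T2 by ring]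
          exact this⟩
      have C := cert A p q hp hq
      have C2 : Certified (fun x => f (-x)) p q g (f (-T2)) (-T2) := by
        have e : f (-T2) = (fun x => f (-x)) (-(-T2)) := by simp
        rw [e]
        exact C
      have := C2.neg
      rwa [neg_neg] at this
  have s1 := (base.int_shift N.per r).shift hg0.ne' hp hq i
  have e : T2 + r + ((i : ℤ) : ℝ) / g = T := by rw [hT2, hT1]; push_cast; ring
  rwa [e] at s1

end Pool.Agent.Y315.CF
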