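import Pool.Agent.Y315.CF.Trig

/-! # Lower bounds for the correction terms in the four regions -/

namespace Pool.Agent.Y315.CF

open Real

/-- The trigonometric correction, in the scaled variable `s = g x`, `h = 2 π / g`. -/
noncomputable def Zf (m n : ℕ) (h L B0 B1 s : ℝ) : ℝ :=
  L * ((cos (h * s) - cos (h * s + 2 * π * (m * s)))
      + (cos (h * s) - cos (h * s + 2 * π * (n * s))))
    + B0 / (2 * π * (m * n) * D m n h 1) * Psi m n h s (2 * π * (m * n * s))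
    + B1 / (2 * π * (m * n) * D m n h 1) * Psi m n h (s - 1) (2 * π * (m * n * s))

lemma cos_shift (r j : ℕ) (σ : ℝ) : cos (2 * π * (r * (j + σ))) = cos (2 * π * (r * σ)) := by
  rw [show 2 * π * (r * ((j : ℝ) + σ)) = 2 * π * (r * σ) + ((r * j : ℕ) : ℝ) * (2 * π) by
    push_cast; ring, cos_add_nat_mul_two_pi]

lemma sin_shift (r j : ℕ) (σ : ℝ) : sin (2 * π * (r * (j + σ))) = sin (2 * π * (r * σ)) := by
  rw [show 2 * π * (r * ((j : ℝ) + σ)) = 2 * π * (r * σ) + ((r * j : ℕ) : ℝ) * (2 * π) by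
    push_cast; ring, sin_add_nat_mul_two_pi]

/-- One of the two main terms near the integer `j`. -/
lemma Lpart (r j : ℕ) {h σ : ℝ} (hh : 0 ≤ h) (hc : 1 / 2 ≤ cos (h * (j + σ))) :
    1 / 2 * (1 - cos (2 * π * (r * σ))) + sin (h * j) * (2 * π * r) * σ
      - (h * j * (2 * (2 * π * r) ^ 2) + h * (2 * π * r)) * σ ^ 2
    ≤ cos (h * (j + σ)) - cos (h * (j + σ) + 2 * π * (r * (j + σ))) := by
  rw [cos_add, cos_shift, sin_shift]
  set Y := 2 * π * (r * σ) with hY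
  have h1 : 1 / 2 * (1 - cos Y) ≤ cos (h * (j + σ)) * (1 - cos Y) :=
    mul_le_mul_of_nonneg_right hc (by linarith [cos_le_one Y])
  have h2 : |sin (h * j) * (Y - sin Y)| ≤ h * j * (2 * Y ^ 2) := by
    rw [abs_mul]
    apply mul_le_mul _ (abs_sub_sin Y) (abs_nonneg _) (by positivity)
    calc |sin (h * j)| ≤ |h * j| := abs_sin_le_abs
      _ = h * j := abs_of_nonneg (by positivity)
  have h3 : |(sin (h * (j + σ)) - sin (h * j)) * sin Y| ≤ (h * |σ|) * |Y| := by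
    rw [abs_mul]
    apply mul_le_mul _ abs_sin_le_abs (abs_nonneg _) (by positivity)
    refine (abs_sin_sub _ _).trans ?_
    rw [show h * (j + σ) - h * j = h * σ by ring, abs_mul, abs_of_nonneg hh]
  have h4 : |Y| = 2 * π * r * |σ| := by
    rw [hY, show 2 * π * (r * σ) = (2 * π * r) * σ by ring, abs_mul,
      abs_of_nonneg (by positivity : (0 : ℝ) ≤ 2 * π * r)]
  have h5 : (h * |σ|) * |Y| = h * (2 * π * r) * σ ^ 2 := by
    rw [h4, ← sq_abs σ]; ring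
  have h6 : h * j * (2 * Y ^ 2) = h * j * (2 * (2 * π * r) ^ 2) * σ ^ 2 := by
    rw [hY]; ring
  rw [h5] at h3
  rw [h6] at h2
  have h7 := neg_abs_le ((sin (h * (j + σ)) - sin (h * j)) * sin Y)
  have h8 := le_abs_self (sin (h * j) * (Y - sin Y))
  have h9 : sin (h * j) * (2 * π * r) * σ = sin (h * j) * Y := by rw [hY]; ring
  rw [h9]
  nlinarith

/-- The slope-correcting terms near the integer `j`; `β D(1) = B0 D(j) + B1 D(j-1)`. -/
lemma Bpart (M : ℕ) (hM : 1 ≤ M) {m n : ℝ} {j : ℕ} {h σ B0 B1 β : ℝ} (hm : 0 ≤ m) (hn : 0 ≤ n)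
    (hh : 0 ≤ h) (hB0 : 0 ≤ B0) (hB1 : 0 ≤ B1) (hD : 0 < D m n h 1)
    (hβ : β * D m n h 1 = B0 * D m n h j + B1 * D m n h (j - 1)) :
    -(β * σ) - (|β| * (4 * π * M) + (B0 + B1) * ((m + n) * h / D m n h 1)) * σ ^ 2
    ≤ -(B0 / (2 * π * M * D m n h 1) * (D m n h (j + σ) * sin (2 * π * (M * (j + σ)))))
      - B1 / (2 * π * M * D m n h 1) * (D m n h (j + σ - 1) * sin (2 * π * (M * (j + σ)))) := by
  rw [sin_shift]
  set Y := 2 * π * (M * σ) with hY
  set D1 := D m n h 1 with hD1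
  have hMp : (0 : ℝ) < M := by exact_mod_cast hM
  have hc : 0 < 2 * π * M := by positivity
  have hcD : 0 < 2 * π * M * D1 := by positivity
  -- rewrite
  have key : -(B0 / (2 * π * M * D1) * (D m n h (j + σ) * sin Y))
      - B1 / (2 * π * M * D1) * (D m n h (j + σ - 1) * sin Y)
      = -(β * σ) + β / (2 * π * M) * (Y - sin Y)
        - (1 / (2 * π * M * D1)) * (B0 * (D m n h (j + σ) - D m n h j)
            + B1 * (D m n h (j + σ - 1) - D m n h (j - 1))) * sin Y := by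
    have e1 : β / (2 * π * M) * (Y - sin Y) = β * σ - (β * D1) / (2 * π * M * D1) * sin Y := by
      rw [hY]; field_simp
    rw [e1, hβ]; field_simp; ring
  rw [key]
  have h1 : |β / (2 * π * M) * (Y - sin Y)| ≤ |β| * (4 * π * M) * σ ^ 2 := by
    rw [abs_mul, abs_div, abs_of_pos hc]
    calc |β| / (2 * π * M) * |Y - sin Y| ≤ |β| / (2 * π * M) * (2 * Y ^ 2) :=
          mul_le_mul_of_nonneg_left (abs_sub_sin Y) (by positivity)
      _ = |β| * (4 * π * M) * σ ^ 2 := by rw [hY]; field_simp; ring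
  have hl1 : |D m n h (j + σ) - D m n h j| ≤ (m + n) * h * |σ| := by
    have := D_lip hm hn hh (j + σ) j
    rwa [add_sub_cancel_left] at this
  have hl2 : |D m n h (j + σ - 1) - D m n h (j - 1)| ≤ (m + n) * h * |σ| := by
    have := D_lip hm hn hh (j + σ - 1) (j - 1)
    rwa [show (j : ℝ) + σ - 1 - (j - 1) = σ by ring] at this
  have h2 : |B0 * (D m n h (j + σ) - D m n h j)
            + B1 * (D m n h (j + σ - 1) - D m n h (j - 1))| ≤ (B0 + B1) * ((m + n) * h * |σ|) := by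
    refine (abs_add_le _ _).trans ?_
    rw [abs_mul, abs_mul, abs_of_nonneg hB0, abs_of_nonneg hB1, add_mul]
    exact add_le_add (mul_le_mul_of_nonneg_left hl1 hB0) (mul_le_mul_of_nonneg_left hl2 hB1)
  have hYa : |Y| = 2 * π * M * |σ| := by
    rw [hY, show 2 * π * (M * σ) = (2 * π * M) * σ by ring, abs_mul,
      abs_of_nonneg (by positivity : (0 : ℝ) ≤ 2 * π * M)]
  have h3 : |(1 / (2 * π * M * D1)) * (B0 * (D m n h (j + σ) - D m n h j)
            + B1 * (D m n h (j + σ - 1) - D m n h (j - 1))) * sin Y|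
      ≤ (B0 + B1) * ((m + n) * h / D1) * σ ^ 2 := by
    rw [abs_mul, abs_mul, abs_of_pos (by positivity : 0 < 1 / (2 * π * M * D1))]
    calc 1 / (2 * π * M * D1) * |B0 * (D m n h (j + σ) - D m n h j)
            + B1 * (D m n h (j + σ - 1) - D m n h (j - 1))| * |sin Y|
        ≤ 1 / (2 * π * M * D1) * ((B0 + B1) * ((m + n) * h * |σ|)) * (2 * π * M * |σ|) := by
          apply mul_le_mul _ (hYa ▸ abs_sin_le_abs) (abs_nonneg _) (by positivity)
          exact mul_le_mul_of_nonneg_left h2 (by positivity)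
      _ = (B0 + B1) * ((m + n) * h / D1) * σ ^ 2 := by
          rw [← sq_abs σ]; field_simp
  have h4 := neg_abs_le (β / (2 * π * M) * (Y - sin Y))
  have h5 := le_abs_self ((1 / (2 * π * M * D1)) * (B0 * (D m n h (j + σ) - D m n h j)
            + B1 * (D m n h (j + σ - 1) - D m n h (j - 1))) * sin Y)
  nlinarith

/-- The standing assumptions on the parameters. -/
structure Par (m n : ℕ) (h : ℝ) : Prop where
  hm : 1 ≤ m
  hmn : m < n
  hco : m.Coprime n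
  h0 : 0 < h
  hs : 30000 * (n : ℝ) ^ 5 * h ≤ 1

namespace Par

variable {m n : ℕ} {h : ℝ} (P : Par m n h)

include P

lemma m1 : (1 : ℝ) ≤ m := by exact_mod_cast P.hm

lemma mn : (m : ℝ) + 1 ≤ n := by exact_mod_cast P.hmn

lemma n2 : (2 : ℝ) ≤ n := by linarith [P.m1, P.mn]

lemma hn4 : 60000 * (n : ℝ) ^ 4 * h ≤ 1 := by
  have h1 := P.hs
  have h2 : (60000 : ℝ) * (n : ℝ) ^ 4 * h ≤ 30000 * (n : ℝ) ^ 5 * h := by
    apply mul_le_mul_of_nonneg_right _ P.h0.le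
    have := P.n2
    nlinarith [pow_nonneg (by linarith : (0 : ℝ) ≤ n) 4]
  linarith

lemma hn3 : 120000 * (n : ℝ) ^ 3 * h ≤ 1 := by
  have h1 := P.hn4
  have h2 : (120000 : ℝ) * (n : ℝ) ^ 3 * h ≤ 60000 * (n : ℝ) ^ 4 * h := by
    apply mul_le_mul_of_nonneg_right _ P.h0.le
    have := P.n2
    nlinarith [pow_nonneg (by linarith : (0 : ℝ) ≤ n) 3]
  linarith

lemma hh1 : 900000 * h ≤ 1 := by
  have h1 := P.hn3
  have h2 : (8 : ℝ) ≤ (n : ℝ) ^ 3 := by
    have := P.n2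
    nlinarith [mul_nonneg (by linarith : (0 : ℝ) ≤ n - 2) (by linarith : (0 : ℝ) ≤ (n : ℝ)),
      mul_nonneg (mul_nonneg (by linarith : (0 : ℝ) ≤ n - 2) (by linarith : (0 : ℝ) ≤ (n : ℝ)))
        (by linarith : (0 : ℝ) ≤ (n : ℝ))]
  nlinarith [P.h0]

lemma D1 : (9 / 10) * ((n : ℝ) - m) * h ≤ D m n h 1 := by
  apply D_one_lower P.m1 P.mn P.h0
  have h1 := P.hn3
  have h2 := P.hh1
  have h3 := P.h0
  have : (n : ℝ) ^ 3 * h ^ 2 = ((n : ℝ) ^ 3 * h) * h := by ring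
  rw [this]
  have h4 : 0 ≤ (n : ℝ) ^ 3 * h := by positivity
  nlinarith

lemma D1' : (9 / 10) * h ≤ D m n h 1 := by
  have h1 := P.D1
  have h2 : (9 / 10) * h ≤ (9 / 10) * ((n : ℝ) - m) * h := by
    have := P.mn
    have h3 := P.h0
    nlinarith [mul_nonneg (by linarith : (0 : ℝ) ≤ n - m - 1) h3.le]
  linarith

lemma D1pos : 0 < D m n h 1 := by linarith [P.D1', P.h0]

/-- `(m+n) h / D(1) ≤ 2.3 n`. -/
lemma Sh : ((m : ℝ) + n) * h / D m n h 1 ≤ 23 / 10 * n := by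
  rw [div_le_iff₀ P.D1pos]
  have h1 := P.D1'
  have h2 := P.mn
  have h3 := P.h0
  have h4 := P.n2
  have h5 : ((m : ℝ) + n) * h ≤ 2 * n * h := by
    apply mul_le_mul_of_nonneg_right _ h3.le; linarith
  have h6 : 23 / 10 * (n : ℝ) * ((9 / 10) * h) ≤ 23 / 10 * n * D m n h 1 :=
    mul_le_mul_of_nonneg_left h1 (by linarith)
  nlinarith [mul_nonneg (by linarith : (0 : ℝ) ≤ n) h3.le]

/-- `(m+n) h / (2 π m n D(1)) ≤ 0.266`. -/
lemma ShM : ((m : ℝ) + n) * h / (2 * π * (m * n) * D m n h 1) ≤ 266 / 1000 := by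
  have h0 := P.m1
  have h2 := P.mn
  have h3 := P.h0
  have h4 := P.n2
  have hmn : 0 < (m : ℝ) * n := by nlinarith
  rw [div_le_iff₀ (by have := P.D1pos; positivity)]
  have h1 := P.D1
  have h5 : ((m : ℝ) + n) ≤ 3 / 2 * (m * n) * (n - m) := by
    have h6 : ((m : ℝ) + n) ≤ 3 / 2 * (m * n) := by nlinarith
    nlinarith
  have h7 : (2 * π * (m * n) * ((9 / 10) * ((n : ℝ) - m) * h)) ≤ 2 * π * (m * n) * D m n h 1 :=
    mul_le_mul_of_nonneg_left h1 (by positivity)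
  have h8 : ((m : ℝ) + n) * h ≤ 3 / 2 * (m * n) * (n - m) * h :=
    mul_le_mul_of_nonneg_right h5 h3.le
  have h9 : 0 ≤ (m * n : ℝ) * (n - m) * h := by
    apply mul_nonneg (mul_nonneg hmn.le (by linarith)) h3.le
  nlinarith [pi_gt_d2]

lemma cos_half {s : ℝ} (hs : |s| ≤ 2) : 1 / 2 ≤ cos (h * s) := by
  have h1 := P.hh1
  have h2 := P.h0
  have h3 : (h * s) ^ 2 ≤ 1 := by
    have h4 : |h * s| ≤ 1 := by
      rw [abs_mul, abs_of_pos h2]; nlinarith [abs_nonneg s]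
    rw [← sq_abs]; nlinarith [abs_nonneg (h * s)]
  have := one_sub_sq_div_two_le_cos (x := h * s)
  linarith

end Par

lemma Zf_near {m n : ℕ} {h : ℝ} (P : Par m n h) {L B0 B1 s : ℝ} (hB0 : 0 ≤ B0) (hB1 : 0 ≤ B1)
    (hE : n * h * (|s| + 1) ≤ π) :
    L * ((cos (h * s) - cos (h * s + 2 * π * (m * s)))
      + (cos (h * s) - cos (h * s + 2 * π * (n * s))))
      + (-(B0 / (2 * π * ((m * n : ℕ) : ℝ) * D m n h 1) *
          (D m n h s * sin (2 * π * (((m * n : ℕ) : ℝ) * s))))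
      - B1 / (2 * π * ((m * n : ℕ) : ℝ) * D m n h 1) *
          (D m n h (s - 1) * sin (2 * π * (((m * n : ℕ) : ℝ) * s))))
    ≤ Zf m n h L B0 B1 s := by
  unfold Zf
  have h0 := P.m1
  have h2 := P.mn
  have hD := P.D1pos
  have hh := P.h0
  have hmn : 0 < (m : ℝ) * n := by nlinarith
  have e1 : |s| ≤ |s| + 1 := by linarith
  have e2 : |s - 1| ≤ |s| + 1 := by
    have := abs_sub s 1
    rwa [abs_one] at this
  have hnh : 0 ≤ (n : ℝ) * h := by positivity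
  have p1 := Psi_lower (m := m) (n := n) (h := h) (v := s) (θ := 2 * π * (m * n * s))
    (by linarith) (by linarith) hh.le (le_trans (mul_le_mul_of_nonneg_left e1 hnh) hE)
  have p2 := Psi_lower (m := m) (n := n) (h := h) (v := s - 1) (θ := 2 * π * (m * n * s))
    (by linarith) (by linarith) hh.le (le_trans (mul_le_mul_of_nonneg_left e2 hnh) hE)
  have c0 : 0 ≤ B0 / (2 * π * (m * n) * D m n h 1) := by positivity
  have c1 : 0 ≤ B1 / (2 * π * (m * n) * D m n h 1) := by positivity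
  have q1 := mul_le_mul_of_nonneg_left p1 c0
  have q2 := mul_le_mul_of_nonneg_left p2 c1
  push_cast
  linarith

lemma num_cb {n M b B r : ℝ} (hn : 2 ≤ n) (hM0 : 0 ≤ M) (hM : M ≤ n ^ 2) (hb : |b| ≤ 103 / 100)
    (hB : B ≤ 155 / 100) (hr0 : 0 ≤ r) (hr : r ≤ 23 / 10 * n) :
    |b| * (4 * π * M) + B * r ≤ 15 * n ^ 2 := by
  have x1 : 4 * π * M ≤ 12.6 * n ^ 2 := by
    have : 4 * π ≤ 12.6 := by linarith [pi_lt_d2]
    exact mul_le_mul this hM hM0 (by norm_num)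
  have x2 : |b| * (4 * π * M) ≤ 103 / 100 * (12.6 * n ^ 2) :=
    mul_le_mul hb x1 (by positivity) (by norm_num)
  have x3 : B * r ≤ (155 / 100) * (23 / 10 * n) := mul_le_mul hB hr hr0 (by norm_num)
  have x4 : 2 * n ≤ n ^ 2 := by nlinarith
  linarith

lemma num_cl1 {n h j r : ℝ} (hh : 0 ≤ h) (hj1 : j ≤ 1) (hr0 : 0 ≤ r) (hr : r ≤ n) :
    h * j * (2 * (2 * π * r) ^ 2) ≤ 80 * n ^ 2 * h := by
  have hpi : π < 3.15 := pi_lt_d2
  have hpi0 := pi_pos
  have hp2 : π ^ 2 ≤ 10 := by nlinarith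
  have z2 : r ^ 2 ≤ n ^ 2 := pow_le_pow_left₀ hr0 hr 2
  have z1 : j * (8 * (π ^ 2 * r ^ 2)) ≤ 1 * (8 * (10 * n ^ 2)) := by
    apply mul_le_mul hj1 _ (by positivity) (by norm_num)
    apply mul_le_mul_of_nonneg_left _ (by norm_num)
    exact mul_le_mul hp2 z2 (by positivity) (by norm_num)
  calc h * j * (2 * (2 * π * r) ^ 2) = h * (j * (8 * (π ^ 2 * r ^ 2))) := by ring
    _ ≤ h * (1 * (8 * (10 * n ^ 2))) := mul_le_mul_of_nonneg_left z1 hh
    _ = 80 * n ^ 2 * h := by ring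

lemma num_cl {n m h j : ℝ} (hh : 0 ≤ h) (hj1 : j ≤ 1) (hm0 : 0 ≤ m) (hm : m ≤ n)
    (hn : 2 ≤ n) :
    (h * j * (2 * (2 * π * m) ^ 2) + h * (2 * π * m)) + (h * j * (2 * (2 * π * n) ^ 2)
      + h * (2 * π * n)) ≤ 200 * n ^ 2 * h := by
  have y1 := num_cl1 hh hj1 hm0 hm
  have y2 := num_cl1 hh hj1 (by linarith : 0 ≤ n) le_rfl
  have y3 : 2 * π * m + 2 * π * n ≤ 40 * n ^ 2 := by
    have hpi : π < 3.15 := pi_lt_d2
    have a1 : 2 * π * m ≤ 2 * π * n := by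
      apply mul_le_mul_of_nonneg_left hm (by positivity)
    have a2 : 2 * π * n ≤ 6.3 * n := by
      apply mul_le_mul_of_nonneg_right _ (by linarith); linarith
    nlinarith
  have y4 := mul_le_mul_of_nonneg_left y3 hh
  linarith

/-- Region near the integer `j`, `j = 0, 1`. -/
lemma region_near {m n : ℕ} {h : ℝ} (P : Par m n h) {B0 B1 σ β : ℝ} {j : ℕ} (hj : j ≤ 1)
    (hB0 : 0 ≤ B0) (hB1 : 0 ≤ B1) (hB0' : B0 ≤ 103 / 100) (hB1' : B1 ≤ 52 / 100)
    (hσ : |σ| ≤ 2 / 3) (hβ : β * D m n h 1 = B0 * D m n h j + B1 * D m n h (j - 1))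
    (hβ' : |β| ≤ 103 / 100) :
    -(β * σ) + 20 * (n : ℝ) ^ 4 * (sin (h * j) * (2 * π * (m + n))) * σ
      ≤ Zf m n h (20 * (n : ℝ) ^ 4) B0 B1 (j + σ) := by
  have h0 := P.m1
  have h2 := P.mn
  have hD := P.D1pos
  have hh := P.h0
  have hn2 := P.n2
  have hj0 : (0 : ℝ) ≤ j := Nat.cast_nonneg j
  have hj1 : (j : ℝ) ≤ 1 := by exact_mod_cast hj
  have hs2 : |(j : ℝ) + σ| ≤ 2 := by
    refine (abs_add_le _ _).trans ?_
    rw [abs_of_nonneg hj0]; linarith
  have hE : n * h * (|(j : ℝ) + σ| + 1) ≤ π := by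
    have h3 := P.hn3
    have h4 : (n : ℝ) ≤ n ^ 3 := by
      have : (1 : ℝ) ≤ (n : ℝ) ^ 2 := by nlinarith
      calc (n : ℝ) = n * 1 := by ring
        _ ≤ n * n ^ 2 := mul_le_mul_of_nonneg_left this (by linarith)
        _ = n ^ 3 := by ring
    have h5 : (n : ℝ) * h ≤ 1 / 120000 := by
      have := mul_le_mul_of_nonneg_right h4 hh.le
      linarith
    calc n * h * (|(j : ℝ) + σ| + 1) ≤ 1 / 120000 * (2 + 1) :=
          mul_le_mul h5 (by linarith) (by positivity) (by norm_num)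
      _ ≤ π := by linarith [pi_gt_three]
  refine le_trans ?_ (Zf_near P hB0 hB1 hE)
  have hM1 : 1 ≤ m * n := Nat.one_le_iff_ne_zero.2 (Nat.mul_ne_zero (by have := P.hm; omega)
    (by have := P.hmn; omega))
  have b := Bpart (m * n) hM1 (m := m) (n := n) (j := j) (h := h) (σ := σ) (by linarith)
    (by linarith) hh.le hB0 hB1 hD hβ
  have l1 := Lpart m j hh.le (P.cos_half hs2)
  have l2 := Lpart n j hh.le (P.cos_half hs2)
  have gb := gamma_bound P.hm P.hmn P.hco hσ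
  -- collect
  have hM : ((m * n : ℕ) : ℝ) ≤ n ^ 2 := by
    push_cast
    have : (m : ℝ) * n ≤ n * n := mul_le_mul_of_nonneg_right (by linarith) (by linarith)
    linarith [this]
  have hM0 : (0 : ℝ) ≤ ((m * n : ℕ) : ℝ) := Nat.cast_nonneg _
  have hq : 0 ≤ σ ^ 2 := sq_nonneg σ
  have cb := num_cb (B := B0 + B1) hn2 hM0 hM hβ' (by linarith) (by positivity) P.Sh
  have cl := num_cl hh.le hj1 (by linarith : (0 : ℝ) ≤ m) (by linarith) hn2
  have cl2 : 20 * (n : ℝ) ^ 4 * (200 * (n : ℝ) ^ 2 * h) ≤ (n : ℝ) ^ 2 := by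
    have := P.hs
    have z : 20 * (n : ℝ) ^ 4 * (200 * (n : ℝ) ^ 2 * h)
        = (30000 * (n : ℝ) ^ 5 * h) * (4000 / 30000 * n) := by
      ring
    rw [z]
    have z2 : (30000 * (n : ℝ) ^ 5 * h) * (4000 / 30000 * n) ≤ 1 * (4000 / 30000 * n) :=
      mul_le_mul_of_nonneg_right this (by linarith)
    have z3 : 4000 / 30000 * (n : ℝ) ≤ n ^ 2 := by nlinarith
    linarith
  have gb' : 20 * (n : ℝ) ^ 2 * σ ^ 2 ≤ 20 * (n : ℝ) ^ 4 * (1 / 2 * (1 - cos (2 * π * (m * σ)))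
      + 1 / 2 * (1 - cos (2 * π * (n * σ)))) := by
    have := mul_le_mul_of_nonneg_left gb (by positivity : 0 ≤ 10 * (n : ℝ) ^ 4)
    have z : 10 * (n : ℝ) ^ 4 * (2 / (n : ℝ) ^ 2 * σ ^ 2) = 20 * (n : ℝ) ^ 2 * σ ^ 2 := by
      field_simp; ring
    rw [z] at this
    linarith
  have l12 := mul_le_mul_of_nonneg_left (add_le_add l1 l2) (by positivity : 0 ≤ 20 * (n : ℝ) ^ 4)
  have cl3 := mul_le_mul_of_nonneg_right (mul_le_mul_of_nonneg_left cl
    (by positivity : 0 ≤ 20 * (n : ℝ) ^ 4)) hq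
  have cb3 := mul_le_mul_of_nonneg_right cb hq
  have cl4 := mul_le_mul_of_nonneg_right cl2 hq
  have hnn : 0 ≤ (n : ℝ) ^ 2 * σ ^ 2 := by positivity
  -- abstract everything
  set X := 20 * (n : ℝ) ^ 4 with hX
  set c1 := 1 - cos (2 * π * (m * σ))
  set c2 := 1 - cos (2 * π * (n * σ))
  set e1 := h * j * (2 * (2 * π * m) ^ 2) + h * (2 * π * m) with he1
  set e2 := h * j * (2 * (2 * π * n) ^ 2) + h * (2 * π * n) with he2
  set u1 := cos (h * (j + σ)) - cos (h * (j + σ) + 2 * π * (m * (j + σ)))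
  set u2 := cos (h * (j + σ)) - cos (h * (j + σ) + 2 * π * (n * (j + σ)))
  set C := |β| * (4 * π * ((m * n : ℕ) : ℝ)) + (B0 + B1) * (((m : ℝ) + n) * h / D m n h 1)
  set sj := sin (h * j)
  set b1 := -(B0 / (2 * π * ((m * n : ℕ) : ℝ) * D m n h 1) *
          (D m n h (j + σ) * sin (2 * π * (((m * n : ℕ) : ℝ) * (j + σ)))))
      - B1 / (2 * π * ((m * n : ℕ) : ℝ) * D m n h 1) *
          (D m n h (j + σ - 1) * sin (2 * π * (((m * n : ℕ) : ℝ) * (j + σ))))
  have f1 : X * (1 / 2 * c1 + sj * (2 * π * m) * σ - e1 * σ ^ 2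
      + (1 / 2 * c2 + sj * (2 * π * n) * σ - e2 * σ ^ 2))
      = X * (1 / 2 * c1 + 1 / 2 * c2) + X * (sj * (2 * π * (m + n))) * σ
        - X * (e1 + e2) * σ ^ 2 := by ring
  rw [f1] at l12
  have f2 : X * (200 * (n : ℝ) ^ 2 * h) * σ ^ 2 ≤ (n : ℝ) ^ 2 * σ ^ 2 := cl4
  linarith

lemma region_mid {m n : ℕ} {h : ℝ} (P : Par m n h) {B0 B1 s : ℝ}
    (hB0 : 0 ≤ B0) (hB1 : 0 ≤ B1) (hE : n * h * (|s| + 1) ≤ π) :
    -(1 / 1000 * |s|) - 266 / 1000 * (B0 * |s| + B1 * |s - 1|)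
      ≤ Zf m n h (20 * (n : ℝ) ^ 4) B0 B1 s := by
  have h0 := P.m1
  have h2 := P.mn
  have hD := P.D1pos
  have hh := P.h0
  have hn2 := P.n2
  refine le_trans ?_ (Zf_near P hB0 hB1 hE)
  have hX : |h * s| ≤ π / 2 := by
    rw [abs_mul, abs_of_pos hh]
    have h3 : 2 * (h * |s|) ≤ n * h * (|s| + 1) := by
      have : 2 * (h * |s|) ≤ n * (h * |s|) := mul_le_mul_of_nonneg_right hn2 (by positivity)
      have h4 : 0 ≤ (n : ℝ) * h := by positivity
      linarith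
    linarith
  have hc : 0 ≤ cos (h * s) := cos_nonneg_of_mem_Icc ⟨by linarith [(abs_le.1 hX).1], (abs_le.1 hX).2⟩
  have hl : ∀ r : ℝ, -(h * |s|) ≤ cos (h * s) - cos (h * s + 2 * π * (r * s)) := by
    intro r
    rw [cos_add]
    set Y := 2 * π * (r * s)
    have a1 : 0 ≤ cos (h * s) * (1 - cos Y) := mul_nonneg hc (by linarith [cos_le_one Y])
    have a2 : |sin (h * s) * sin Y| ≤ (h * |s|) * 1 := by
      rw [abs_mul]
      apply mul_le_mul _ (abs_sin_le_one _) (abs_nonneg _) (by positivity)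
      refine abs_sin_le_abs.trans ?_
      rw [abs_mul, abs_of_pos hh]
    have a3 := neg_abs_le (sin (h * s) * sin Y)
    nlinarith
  have hX1 : -(1 / 1000 * |s|) ≤ 20 * (n : ℝ) ^ 4 * ((cos (h * s) - cos (h * s + 2 * π * (m * s)))
      + (cos (h * s) - cos (h * s + 2 * π * (n * s)))) := by
    have b1 := mul_le_mul_of_nonneg_left (add_le_add (hl m) (hl n))
      (by positivity : 0 ≤ 20 * (n : ℝ) ^ 4)
    have b2 := mul_le_mul_of_nonneg_right P.hn4 (abs_nonneg s)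
    have b3 : 0 ≤ (n : ℝ) ^ 4 * h * |s| := by positivity
    nlinarith
  have hY1 : ∀ (B v : ℝ), 0 ≤ B →
      -(266 / 1000 * (B * |v|)) ≤ -(B / (2 * π * ((m * n : ℕ) : ℝ) * D m n h 1) *
          (D m n h v * sin (2 * π * (((m * n : ℕ) : ℝ) * s)))) := by
    intro B v hB
    have hM1 : 1 ≤ m * n := Nat.one_le_iff_ne_zero.2 (Nat.mul_ne_zero (by have := P.hm; omega)
      (by have := P.hmn; omega))
    have hM0 : (0 : ℝ) < ((m * n : ℕ) : ℝ) := by exact_mod_cast hM1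
    have c1 := D_abs (m := m) (n := n) (by linarith) (by linarith) hh.le v
    have c2 : |D m n h v * sin (2 * π * (((m * n : ℕ) : ℝ) * s))| ≤ (m + n) * h * |v| * 1 := by
      rw [abs_mul]
      exact mul_le_mul c1 (abs_sin_le_one _) (abs_nonneg _) (by positivity)
    have c3 := le_abs_self (D m n h v * sin (2 * π * (((m * n : ℕ) : ℝ) * s)))
    have c4 : B / (2 * π * ((m * n : ℕ) : ℝ) * D m n h 1) *
          (D m n h v * sin (2 * π * (((m * n : ℕ) : ℝ) * s)))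
        ≤ B / (2 * π * ((m * n : ℕ) : ℝ) * D m n h 1) * ((m + n) * h * |v|) :=
      mul_le_mul_of_nonneg_left (by linarith) (by positivity)
    have c5 : B / (2 * π * ((m * n : ℕ) : ℝ) * D m n h 1) * ((m + n) * h * |v|)
        = B * |v| * ((m + n) * h / (2 * π * (m * n) * D m n h 1)) := by
      push_cast; field_simp
    have c6 := mul_le_mul_of_nonneg_left P.ShM (by positivity : 0 ≤ B * |v|)
    rw [c5] at c4
    linarith
  have y0 := hY1 B0 s hB0
  have y1 := hY1 B1 (s - 1) hB1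
  linarith

lemma region_far {m n : ℕ} {h : ℝ} (P : Par m n h) {B0 B1 s : ℝ}
    (hB0 : 0 ≤ B0) (hB1 : 0 ≤ B1) :
    -(80 * (n : ℝ) ^ 4) - 8 / 10 * (B0 * |s| + B1 * |s - 1|)
      ≤ Zf m n h (20 * (n : ℝ) ^ 4) B0 B1 s := by
  have h0 := P.m1
  have h2 := P.mn
  have hD := P.D1pos
  have hh := P.h0
  have hn2 := P.n2
  have hmn : 0 < (m : ℝ) * n := by nlinarith
  unfold Zf
  have hX1 : -(80 * (n : ℝ) ^ 4) ≤ 20 * (n : ℝ) ^ 4 * ((cos (h * s) - cos (h * s + 2 * π * (m * s)))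
      + (cos (h * s) - cos (h * s + 2 * π * (n * s)))) := by
    have b1 : -4 ≤ (cos (h * s) - cos (h * s + 2 * π * (m * s)))
      + (cos (h * s) - cos (h * s + 2 * π * (n * s))) := by
      linarith [neg_one_le_cos (h * s), cos_le_one (h * s + 2 * π * (m * s)),
        cos_le_one (h * s + 2 * π * (n * s))]
    have := mul_le_mul_of_nonneg_left b1 (by positivity : 0 ≤ 20 * (n : ℝ) ^ 4)
    linarith
  have hY1 : ∀ (B v : ℝ), 0 ≤ B →
      -(8 / 10 * (B * |v|)) ≤ B / (2 * π * (m * n) * D m n h 1) *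
          Psi m n h v (2 * π * (m * n * s)) := by
    intro B v hB
    have c1 := Psi_crude (m := m) (n := n) (by linarith) (by linarith) hh.le v
      (2 * π * (m * n * s))
    have c4 := mul_le_mul_of_nonneg_left c1
      (by positivity : 0 ≤ B / (2 * π * (m * n) * D m n h 1))
    have c5 : B / (2 * π * (m * n) * D m n h 1) * -(3 * ((m + n) * h * |v|))
        = -(3 * (B * |v|) * ((m + n) * h / (2 * π * (m * n) * D m n h 1))) := by
      field_simp
    have c6 := mul_le_mul_of_nonneg_left P.ShM (by positivity : 0 ≤ 3 * (B * |v|))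
    rw [c5] at c4
    have c7 : 0 ≤ B * |v| := by positivity
    linarith
  have y0 := hY1 B0 s hB0
  have y1 := hY1 B1 (s - 1) hB1
  linarith

/-- The purely numerical inequality of the middle region. -/
lemma num_mid {s τ B0 B1 φ : ℝ} (hs : s ≤ -(2 / 3) ∨ 5 / 3 ≤ s) (hτ : 0 ≤ τ)
    (hτ' : τ ≤ 51 / 100) (hB1 : B1 ≤ 101 / 100 * τ)
    (hB0 : B0 ≤ 101 / 100 * (1 - τ) + 1 / 100)
    (hφ : 1 / 2 * (99 / 100 * (s - τ) ^ 2 - 101 / 100 * τ ^ 2) ≤ φ) :
    0 < φ - 1 / 1000 * |s| - 266 / 1000 * (B0 * |s| + B1 * |s - 1|) := by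
  rcases hs with hs | hs
  · have e1 : |s| = -s := abs_of_neg (by linarith)
    have e2 : |s - 1| = 1 - s := by rw [abs_of_neg (by linarith)]; ring
    rw [e1, e2]
    have f1 : B0 * (-s) ≤ (101 / 100 * (1 - τ) + 1 / 100) * (-s) :=
      mul_le_mul_of_nonneg_right hB0 (by linarith)
    have f2 : B1 * (1 - s) ≤ (101 / 100 * τ) * (1 - s) :=
      mul_le_mul_of_nonneg_right hB1 (by linarith)
    nlinarith [mul_nonneg hτ (by linarith : 0 ≤ -(2 / 3) - s),
      mul_nonneg (by linarith : 0 ≤ -(2 / 3) - s) (by linarith : 0 ≤ -s),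
      mul_nonneg hτ (by linarith : 0 ≤ 51 / 100 - τ)]
  · have e1 : |s| = s := abs_of_pos (by linarith)
    have e2 : |s - 1| = s - 1 := abs_of_pos (by linarith)
    rw [e1, e2]
    have f1 : B0 * s ≤ (101 / 100 * (1 - τ) + 1 / 100) * s :=
      mul_le_mul_of_nonneg_right hB0 (by linarith)
    have f2 : B1 * (s - 1) ≤ (101 / 100 * τ) * (s - 1) :=
      mul_le_mul_of_nonneg_right hB1 (by linarith)
    nlinarith [mul_nonneg (by linarith : 0 ≤ s - 5 / 3) (by linarith : 0 ≤ 51 / 100 - τ),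
      mul_nonneg (by linarith : 0 ≤ s - 5 / 3) (by linarith : 0 ≤ s),
      mul_nonneg hτ (by linarith : 0 ≤ 51 / 100 - τ)]

end Pool.Agent.Y315.CF
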