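import Pool.Agent.Y315.CF.Cob

/-! # Smooth functions with a nondegenerate maximum -/

namespace Pool.Agent.Y315.CF

open Set

lemma contDiff_deriv {H : ℝ → ℝ} (hH : ContDiff ℝ 2 H) : ContDiff ℝ 1 (deriv H) := by
  have h : ContDiff ℝ ((1 : WithTop ℕ∞) + 1) H := by rw [one_add_one_eq_two]; exact hH
  exact (contDiff_succ_iff_deriv.1 h).2.2

/-- Tangent inequality for a function with nonpositive second derivative on an interval. -/
lemma tangent {H : ℝ → ℝ} (hH : ContDiff ℝ 2 H) {δ : ℝ}
    (h2 : ∀ x, |x| ≤ δ → deriv (deriv H) x ≤ 0) {y z : ℝ} (hy : |y| ≤ δ) (hz : |z| ≤ δ) :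
    H z ≤ H y + deriv H y * (z - y) := by
  have hd : Differentiable ℝ H := hH.differentiable (by norm_num)
  have hd1 : ContDiff ℝ 1 (deriv H) := contDiff_deriv hH
  have hd2 : Differentiable ℝ (deriv H) := hd1.differentiable (by norm_num)
  have anti : AntitoneOn (deriv H) (Icc (-δ) δ) := by
    apply antitoneOn_of_deriv_nonpos (convex_Icc _ _) hd2.continuous.continuousOn
      hd2.differentiableOn
    intro x hx
    rw [interior_Icc] at hx
    exact h2 x (abs_le.2 ⟨hx.1.le, hx.2.le⟩)
  have hy' := abs_le.1 hy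
  have hz' := abs_le.1 hz
  rcases lt_trichotomy y z with h | h | h
  · obtain ⟨c, hc, hc2⟩ := exists_deriv_eq_slope H h hd.continuous.continuousOn
      hd.differentiableOn
    have h3 : deriv H c ≤ deriv H y :=
      anti ⟨hy'.1, hy'.2⟩ ⟨by linarith [hc.1], by linarith [hc.2]⟩ hc.1.le
    rw [hc2, div_le_iff₀ (by linarith)] at h3
    linarith
  · rw [h]; simp
  · obtain ⟨c, hc, hc2⟩ := exists_deriv_eq_slope H h hd.continuous.continuousOn
      hd.differentiableOn
    have h3 : deriv H y ≤ deriv H c :=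
      anti ⟨by linarith [hc.1], by linarith [hc.2]⟩ ⟨hy'.1, hy'.2⟩ hc.2.le
    rw [hc2, le_div_iff₀ (by linarith)] at h3
    linarith

theorem nd_of_smooth {F : ℝ → ℝ} (hF : ContDiff ℝ 2 F) (hper : Function.Periodic F 1)
    (hmax : ∀ x : ℝ, (∀ k : ℤ, x ≠ (k : ℝ)) → F x < F 0) (hnd : deriv (deriv F) 0 < 0) :
    ∃ K κ δ, Nd F K κ δ := by
  have hd : Differentiable ℝ F := hF.differentiable (by norm_num)
  have hd1 : ContDiff ℝ 1 (deriv F) := contDiff_deriv hF
  have hd2 : Differentiable ℝ (deriv F) := hd1.differentiable (by norm_num)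
  have hc2 : Continuous (deriv (deriv F)) := hd1.continuous_deriv (by norm_num)
  have hle : ∀ x, F x ≤ F 0 := by
    intro x
    by_cases h : ∃ k : ℤ, x = (k : ℝ)
    · obtain ⟨k, rfl⟩ := h
      have := hper.int_mul_eq k
      rw [mul_one] at this
      rw [this]
    · push Not at h
      exact (hmax x h).le
  have hd0 : deriv F 0 = 0 := by
    apply IsLocalMax.deriv_eq_zero
    exact Filter.Eventually.of_forall hle
  set K := -deriv (deriv F) 0 with hKdef
  have hK : 0 < K := by linarith
  obtain ⟨δ', hδ', hδ2⟩ := Metric.continuousAt_iff.1 (hc2.continuousAt (x := (0 : ℝ))) (K / 100)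
    (by positivity)
  set δ := min (δ' / 2) (1 / 2) with hδdef
  have hδ : 0 < δ := by positivity
  have hδ1 : δ ≤ 1 / 2 := min_le_right _ _
  have hsec : ∀ x, |x| ≤ δ → |deriv (deriv F) x + K| ≤ K / 100 := by
    intro x hx
    have h1 : dist x 0 < δ' := by
      rw [Real.dist_eq, sub_zero]
      have := min_le_left (δ' / 2) (1 / 2)
      linarith
    have := hδ2 h1
    rw [Real.dist_eq] at this
    rw [hKdef, ← sub_eq_add_neg] at *
    simpa using this.le
  -- tangent inequalities
  have hsq : ∀ (c : ℝ), ContDiff ℝ 2 (fun x : ℝ => F x + c * x ^ 2) := by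
    intro c; fun_prop
  have hD1 : ∀ (c x : ℝ), HasDerivAt (fun x : ℝ => F x + c * x ^ 2) (deriv F x + 2 * c * x) x := by
    intro c x
    have h1 := (hd x).hasDerivAt.add (((hasDerivAt_id x).pow 2).const_mul c)
    refine h1.congr_deriv ?_
    simp; ring
  have hD1' : ∀ c, deriv (fun x : ℝ => F x + c * x ^ 2) = fun x => deriv F x + 2 * c * x :=
    fun c => funext fun x => (hD1 c x).deriv
  have hD2 : ∀ (c x : ℝ), deriv (deriv (fun x : ℝ => F x + c * x ^ 2)) x
      = deriv (deriv F) x + 2 * c := by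
    intro c x
    rw [hD1']
    have h1 := (hd2 x).hasDerivAt.add ((hasDerivAt_id x).const_mul (2 * c))
    have h2 : HasDerivAt (fun x => deriv F x + 2 * c * x) (deriv (deriv F) x + 2 * c * 1) x := h1
    rw [h2.deriv, mul_one]
  have htan : ∀ y z, |y| ≤ δ → |z| ≤ δ →
      F z ≤ F y + deriv F y * (z - y) - 99 / 200 * K * (z - y) ^ 2 := by
    intro y z hy hz
    have h := tangent (hsq (99 / 200 * K)) (δ := δ) (fun x hx => by
      rw [hD2]
      have := (abs_le.1 (hsec x hx)).2
      linarith) hy hz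
    rw [hD1'] at h
    nlinarith
  have hlow : ∀ y, |y| ≤ δ → F 0 - 101 / 200 * K * y ^ 2 ≤ F y := by
    intro y hy
    have hneg : ContDiff ℝ 2 (fun x : ℝ => -(F x + (101 / 200 * K) * x ^ 2)) :=
      (hsq (101 / 200 * K)).neg
    have e1 : deriv (fun x : ℝ => -(F x + (101 / 200 * K) * x ^ 2))
        = fun x => -(deriv F x + 2 * (101 / 200 * K) * x) :=
      funext fun x => (hD1 (101 / 200 * K) x).neg.deriv
    have e2 : ∀ x, deriv (deriv (fun x : ℝ => -(F x + (101 / 200 * K) * x ^ 2))) x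
        = -(deriv (deriv F) x + 2 * (101 / 200 * K)) := by
      intro x
      rw [e1]
      have h1 := ((hd2 x).hasDerivAt.add ((hasDerivAt_id x).const_mul
        (2 * (101 / 200 * K)))).neg
      have h2 : HasDerivAt (fun x => -(deriv F x + 2 * (101 / 200 * K) * x))
        (-(deriv (deriv F) x + 2 * (101 / 200 * K) * 1)) x := h1
      rw [h2.deriv, mul_one]
    have h := tangent hneg (δ := δ) (fun x hx => by
      rw [e2]
      have := (abs_le.1 (hsec x hx)).1
      linarith) (y := 0) (z := y) (by simpa using hδ.le) hy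
    rw [e1] at h
    simp only [hd0] at h
    nlinarith
  have hder : ∀ y, |y| ≤ δ → |deriv F y + K * y| ≤ K / 100 * |y| := by
    intro y hy
    have hcx : Convex ℝ (Icc (-δ) δ) := convex_Icc _ _
    have hdG : ∀ x, HasDerivAt (fun x => deriv F x + K * x) (deriv (deriv F) x + K) x := by
      intro x
      have h1 := (hd2 x).hasDerivAt.add ((hasDerivAt_id x).const_mul K)
      refine h1.congr_deriv ?_
      simp
    have h := hcx.norm_image_sub_le_of_norm_deriv_le (f := fun x => deriv F x + K * x)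
      (C := K / 100) (x := 0) (y := y) (fun x _ => (hdG x).differentiableAt)
      (fun x hx => by
        rw [(hdG x).deriv]
        exact hsec x (abs_le.2 ⟨hx.1, hx.2⟩))
      ⟨by linarith, hδ.le⟩ ⟨(abs_le.1 hy).1, (abs_le.1 hy).2⟩
    simpa [hd0] using h
  -- far
  have hcomp : IsCompact ({x : ℝ | δ ≤ |x|} ∩ Icc (-(3 / 4)) (3 / 4)) := by
    rw [inter_comm]
    apply isCompact_Icc.inter_right
    exact isClosed_le continuous_const continuous_abs
  have hne : ({x : ℝ | δ ≤ |x|} ∩ Icc (-(3 / 4)) (3 / 4)).Nonempty :=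
    ⟨1 / 2, by
      show δ ≤ |(1 / 2 : ℝ)|
      rw [abs_of_pos (by norm_num)]; exact hδ1, by norm_num, by norm_num⟩
  obtain ⟨x0, hx0, hx0m⟩ := hcomp.exists_isMinOn hne
    (f := fun x => F 0 - F x) (continuous_const.sub hd.continuous).continuousOn
  set c := F 0 - F x0 with hc
  have hcpos : 0 < c := by
    have : ∀ k : ℤ, x0 ≠ (k : ℝ) := by
      intro k hk
      have h1 : δ ≤ |x0| := hx0.1
      have h2 : |x0| ≤ 3 / 4 := abs_le.2 ⟨hx0.2.1, hx0.2.2⟩
      rw [hk] at h1 h2
      have h3 : |k| < 1 := by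
        have : |(k : ℝ)| < 1 := by linarith
        exact_mod_cast this
      have h4 : k = 0 := Int.abs_lt_one_iff.1 h3
      rw [h4] at h1
      simp at h1
      linarith
    have := hmax x0 this
    linarith
  refine ⟨K, min (99 / 200 * K) c, δ, hK, by positivity, ?_, hδ, hper, htan, hder, hlow, ?_⟩
  · exact (min_le_left _ _).trans (by linarith)
  · intro x hx
    rcases le_or_gt |x| δ with h | h
    · have h1 := htan 0 x (by simpa using hδ.le) h
      rw [hd0] at h1
      have h2 : min (99 / 200 * K) c * x ^ 2 ≤ 99 / 200 * K * x ^ 2 :=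
        mul_le_mul_of_nonneg_right (min_le_left _ _) (sq_nonneg x)
      nlinarith
    · have h1 : c ≤ F 0 - F x := hx0m ⟨h.le, abs_le.1 hx⟩
      have h2 : x ^ 2 ≤ 1 := by
        rw [← sq_abs]; nlinarith [abs_nonneg x]
      have h3 : min (99 / 200 * K) c * x ^ 2 ≤ c * 1 := by
        apply mul_le_mul (min_le_right _ _) h2 (sq_nonneg x) hcpos.le
      linarith

lemma Nd.neg {F : ℝ → ℝ} {K κ δ : ℝ} (N : Nd F K κ δ) : Nd (fun x => F (-x)) K κ δ := by
  have hd : ∀ y, deriv (fun x => F (-x)) y = -deriv F (-y) := fun y => deriv_comp_neg F y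
  refine ⟨N.hK, N.hκ, N.hκK, N.hδ, ?_, ?_, ?_, ?_, ?_⟩
  · intro x
    have := N.per (-(x + 1))
    show F (-(x + 1)) = F (-x)
    rw [← this]; congr 1; ring
  · intro y z hy hz
    have := N.tan (-y) (-z) (by rwa [abs_neg]) (by rwa [abs_neg])
    rw [hd]
    show F (-z) ≤ F (-y) + -deriv F (-y) * (z - y) - 99 / 200 * K * (z - y) ^ 2
    nlinarith
  · intro y hy
    have := N.der (-y) (by rwa [abs_neg])
    rw [hd]
    rw [show -deriv F (-y) + K * y = -(deriv F (-y) + K * -y) by ring, abs_neg]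
    rwa [abs_neg] at this
  · intro y hy
    have := N.low (-y) (by rwa [abs_neg])
    simpa using this
  · intro x hx
    have := N.far (-x) (by rwa [abs_neg])
    simpa using this

end Pool.Agent.Y315.CF
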