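import Mathlib

/-! # Elementary trigonometric bounds for the common fixed point theorem -/

namespace Pool.Agent.Y315.CF

open Real

/-- `v - 2 v ^ 2 ≤ sin v` for `v ≥ 0`. -/
lemma sin_lower {v : ℝ} (hv : 0 ≤ v) : v - 2 * v ^ 2 ≤ sin v := by
  rcases hv.eq_or_lt with h | h
  · simp [← h]
  · rcases le_or_gt v 1 with h1 | h1
    · have := sin_gt_sub_cube h
      have h3 : v ^ 3 ≤ v ^ 2 := by nlinarith [sq_nonneg v]
      nlinarith [sq_nonneg v]
    · have := neg_one_le_sin v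
      nlinarith

lemma abs_sub_sin (v : ℝ) : |v - sin v| ≤ 2 * v ^ 2 := by
  rcases le_total 0 v with h | h
  · rw [abs_le]
    have := sin_lower h
    have := sin_le h
    constructor <;> nlinarith [sq_nonneg v]
  · rw [abs_le]
    have := sin_lower (v := -v) (by linarith)
    have := sin_le (x := -v) (by linarith)
    rw [sin_neg] at *
    constructor <;> nlinarith [sq_nonneg v]

lemma abs_sin_sub (a b : ℝ) : |sin a - sin b| ≤ |a - b| := by
  rw [sin_sub_sin, abs_mul, abs_mul]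
  have h1 : |sin ((a - b) / 2)| ≤ |(a - b) / 2| := abs_sin_le_abs
  have h2 : |cos ((a + b) / 2)| ≤ 1 := abs_cos_le_one _
  have h3 : |(a - b) / 2| = |a - b| / 2 := by rw [abs_div]; norm_num
  rw [h3] at h1
  have h4 : (0 : ℝ) ≤ |sin ((a - b) / 2)| := abs_nonneg _
  have h5 : |(2 : ℝ)| = 2 := by norm_num
  rw [h5]
  nlinarith [abs_nonneg (cos ((a + b) / 2)), abs_nonneg (a - b)]

lemma abs_cos_sub (a b : ℝ) : |cos a - cos b| ≤ |a - b| := by
  have := abs_sin_sub (π / 2 - a) (π / 2 - b)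
  rw [sin_pi_div_two_sub, sin_pi_div_two_sub] at this
  calc |cos a - cos b| ≤ |π / 2 - a - (π / 2 - b)| := this
    _ = |a - b| := by rw [abs_sub_comm a b]; congr 1; ring

/-- `1 - cos (2 π v) ≥ 8 (v - k) ^ 2` when `|v - k| ≤ 1/2`. -/
lemma one_sub_cos_ge (v : ℝ) (k : ℤ) (h : |v - k| ≤ 1 / 2) :
    8 * (v - k) ^ 2 ≤ 1 - cos (2 * π * v) := by
  have h1 : cos (2 * π * v) = cos (2 * π * (v - k)) := by
    rw [show 2 * π * (v - k) = 2 * π * v - k * (2 * π) by ring, cos_sub_int_mul_two_pi]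
  have h2 : |2 * π * (v - k)| ≤ π := by
    rw [abs_mul, abs_of_pos (by positivity : (0 : ℝ) < 2 * π)]
    nlinarith [pi_pos]
  have h3 := cos_le_one_sub_mul_cos_sq h2
  have h4 : 2 / π ^ 2 * (2 * π * (v - k)) ^ 2 = 8 * (v - k) ^ 2 := by
    field_simp; ring
  rw [h1]; linarith

/-- Two frequencies with coprime `m < n`: quadratic lower bound near zero. -/
lemma gamma_bound {m n : ℕ} (hm : 1 ≤ m) (hmn : m < n) (hco : m.Coprime n) {s : ℝ}
    (hs : |s| ≤ 2 / 3) :
    2 / (n : ℝ) ^ 2 * s ^ 2 ≤ (1 - cos (2 * π * (m * s))) + (1 - cos (2 * π * (n * s))) := by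
  have hn2 : (2 : ℝ) ≤ n := by exact_mod_cast (by omega : 2 ≤ n)
  have hm1 : (1 : ℝ) ≤ m := by exact_mod_cast hm
  have hmn1 : (m : ℝ) + 1 ≤ n := by exact_mod_cast hmn
  set i := round ((m : ℝ) * s)
  set j := round ((n : ℝ) * s)
  have hi : |(m : ℝ) * s - i| ≤ 1 / 2 := abs_sub_round _
  have hj : |(n : ℝ) * s - j| ≤ 1 / 2 := abs_sub_round _
  have h1 := one_sub_cos_ge _ i hi
  have h2 := one_sub_cos_ge _ j hj
  have hs2 : s ^ 2 ≤ 4 / 9 := by
    have := abs_le.1 hs
    nlinarith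
  by_cases hz : (m : ℤ) * j = n * i
  · -- both are multiples
    have hdvd : (n : ℤ) ∣ j := by
      have h3 : (n : ℤ) ∣ m * j := ⟨i, hz⟩
      have h4 : IsCoprime (n : ℤ) (m : ℤ) := by
        rw [Nat.isCoprime_iff_coprime]; exact hco.symm
      exact h4.dvd_of_dvd_mul_left h3
    obtain ⟨l, hl⟩ := hdvd
    have hl0 : l = 0 := by
      by_contra hne
      have h5 : (1 : ℝ) ≤ |(l : ℝ)| := by
        exact_mod_cast Int.one_le_abs hne
      have h6 : |(n : ℝ) * (s - l)| ≤ 1 / 2 := by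
        have : (n : ℝ) * (s - l) = n * s - j := by rw [hl]; push_cast; ring
        rw [this]; exact hj
      rw [abs_mul, abs_of_pos (by linarith : (0 : ℝ) < n)] at h6
      have h7 : |s - l| ≤ 1 / 4 := by nlinarith [abs_nonneg (s - l)]
      have h8 : |(l : ℝ)| ≤ |s| + |s - l| := by
        have := abs_sub_abs_le_abs_sub (l : ℝ) s
        rw [abs_sub_comm] at this
        linarith
      linarith
    rw [hl0, mul_zero] at hl
    rw [hl] at h2
    push_cast at h2
    have h9 : 2 / (n : ℝ) ^ 2 * s ^ 2 ≤ 8 * (n * s - 0) ^ 2 := by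
      have h10 : 2 / (n : ℝ) ^ 2 ≤ 1 := by
        rw [div_le_one (by positivity)]; nlinarith
      have h11 : s ^ 2 ≤ (n * s - 0) ^ 2 := by
        have : (1 : ℝ) ≤ n ^ 2 := by nlinarith
        nlinarith [sq_nonneg s]
      nlinarith [sq_nonneg s]
    have h12 : 0 ≤ 1 - cos (2 * π * (m * s)) := by linarith [cos_le_one (2 * π * (m * s))]
    linarith
  · have h3 : (1 : ℝ) ≤ |(m : ℝ) * j - n * i| := by
      have h4 : (m : ℤ) * j - n * i ≠ 0 := sub_ne_zero.2 hz
      have h5 : (1 : ℤ) ≤ |(m : ℤ) * j - n * i| := Int.one_le_abs h4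
      exact_mod_cast h5
    set α := (m : ℝ) * s - i
    set β := (n : ℝ) * s - j
    have h6 : (m : ℝ) * j - n * i = n * α - m * β := by
      simp only [α, β]; ring
    rw [h6] at h3
    have h7 : (1 : ℝ) ≤ (n * α - m * β) ^ 2 := by
      rw [← sq_abs]; nlinarith [abs_nonneg (n * α - m * β)]
    -- Cauchy-Schwarz
    have h8 : (n * α - m * β) ^ 2 ≤ ((n : ℝ) ^ 2 + m ^ 2) * (α ^ 2 + β ^ 2) := by
      nlinarith [sq_nonneg ((n : ℝ) * β + m * α)]
    have h9 : ((n : ℝ) ^ 2 + m ^ 2) * (α ^ 2 + β ^ 2) ≤ (2 * n ^ 2) * (α ^ 2 + β ^ 2) := by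
      apply mul_le_mul_of_nonneg_right _ (by positivity)
      nlinarith
    have h10 : 1 / (2 * (n : ℝ) ^ 2) ≤ α ^ 2 + β ^ 2 := by
      rw [div_le_iff₀ (by positivity)]; nlinarith
    have h11 : 2 / (n : ℝ) ^ 2 * s ^ 2 ≤ 8 * (1 / (2 * (n : ℝ) ^ 2)) := by
      rw [show 8 * (1 / (2 * (n : ℝ) ^ 2)) = 4 / (n : ℝ) ^ 2 by field_simp; norm_num]
      rw [div_mul_eq_mul_div]
      apply div_le_div_of_nonneg_right _ (by positivity)
      nlinarith
    linarith

/-- `D(v) = sin (n h v) - sin (m h v)`. -/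
noncomputable def D (m n h v : ℝ) : ℝ := sin (n * h * v) - sin (m * h * v)

/-- The combination of two coboundaries. -/
noncomputable def Psi (m n h v θ : ℝ) : ℝ :=
  (cos (m * h * v) - cos (m * h * v + θ)) - (cos (n * h * v) - cos (n * h * v + θ))

lemma Psi_eq (m n h v θ : ℝ) :
    Psi m n h v θ = (cos (m * h * v) - cos (n * h * v)) * (1 - cos θ) - D m n h v * sin θ := by
  unfold Psi D
  rw [cos_add, cos_add]; ring

lemma D_lip {m n h : ℝ} (hm : 0 ≤ m) (hn : 0 ≤ n) (hh : 0 ≤ h) (v w : ℝ) :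
    |D m n h v - D m n h w| ≤ (m + n) * h * |v - w| := by
  unfold D
  have h1 := abs_sin_sub (n * h * v) (n * h * w)
  have h2 := abs_sin_sub (m * h * v) (m * h * w)
  rw [show n * h * v - n * h * w = (n * h) * (v - w) by ring, abs_mul,
    abs_of_nonneg (by positivity : 0 ≤ n * h)] at h1
  rw [show m * h * v - m * h * w = (m * h) * (v - w) by ring, abs_mul,
    abs_of_nonneg (by positivity : 0 ≤ m * h)] at h2
  calc |sin (n * h * v) - sin (m * h * v) - (sin (n * h * w) - sin (m * h * w))|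
      = |(sin (n * h * v) - sin (n * h * w)) - (sin (m * h * v) - sin (m * h * w))| := by
        congr 1; ring
    _ ≤ |sin (n * h * v) - sin (n * h * w)| + |sin (m * h * v) - sin (m * h * w)| :=
        abs_sub _ _
    _ ≤ (m + n) * h * |v - w| := by nlinarith

lemma D_zero (m n h : ℝ) : D m n h 0 = 0 := by simp [D]

lemma D_neg (m n h v : ℝ) : D m n h (-v) = -D m n h v := by
  unfold D
  rw [show n * h * (-v) = -(n * h * v) by ring, show m * h * (-v) = -(m * h * v) by ring,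
    sin_neg, sin_neg]; ring

lemma D_abs {m n h : ℝ} (hm : 0 ≤ m) (hn : 0 ≤ n) (hh : 0 ≤ h) (v : ℝ) :
    |D m n h v| ≤ (m + n) * h * |v| := by
  have := D_lip hm hn hh v 0
  simpa [D_zero] using this

/-- Lower bound for `D 1`. -/
lemma D_one_lower {m n h : ℝ} (hm : 1 ≤ m) (hmn : m + 1 ≤ n) (hh : 0 < h)
    (hsmall : n ^ 3 * h ^ 2 ≤ 1 / 2) : (9 / 10) * (n - m) * h ≤ D m n h 1 := by
  unfold D
  rw [mul_one, mul_one]
  have h1 : n * h - (n * h) ^ 3 / 6 < sin (n * h) := sin_gt_sub_cube (by nlinarith)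
  have h2 : sin (m * h) ≤ m * h := sin_le (by nlinarith)
  have h3 : (n * h) ^ 3 / 6 ≤ h / 12 := by
    have : (n * h) ^ 3 = n ^ 3 * h ^ 2 * h := by ring
    rw [this]; nlinarith
  nlinarith

lemma Psi_lower {m n h v θ : ℝ} (hm : 0 ≤ m) (hmn : m ≤ n) (hh : 0 ≤ h)
    (hv : n * h * |v| ≤ π) : -(D m n h v * sin θ) ≤ Psi m n h v θ := by
  rw [Psi_eq]
  have hE : 0 ≤ cos (m * h * v) - cos (n * h * v) := by
    rw [← cos_abs (m * h * v), ← cos_abs (n * h * v), abs_mul, abs_mul (n * h),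
      abs_of_nonneg (by positivity : 0 ≤ m * h),
      abs_of_nonneg (mul_nonneg (hm.trans hmn) hh : 0 ≤ n * h)]
    have : cos (n * h * |v|) ≤ cos (m * h * |v|) := by
      apply cos_le_cos_of_nonneg_of_le_pi (by positivity) hv
      apply mul_le_mul_of_nonneg_right _ (abs_nonneg _)
      exact mul_le_mul_of_nonneg_right hmn hh
    linarith
  have : 0 ≤ (cos (m * h * v) - cos (n * h * v)) * (1 - cos θ) :=
    mul_nonneg hE (by linarith [cos_le_one θ])
  linarith

lemma Psi_crude {m n h : ℝ} (hm : 0 ≤ m) (hn : 0 ≤ n) (hh : 0 ≤ h) (v θ : ℝ) :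
    -(3 * ((m + n) * h * |v|)) ≤ Psi m n h v θ := by
  rw [Psi_eq]
  have hE : |cos (m * h * v) - cos (n * h * v)| ≤ (m + n) * h * |v| := by
    refine (abs_cos_sub _ _).trans ?_
    rw [show m * h * v - n * h * v = (m - n) * h * v by ring, abs_mul, abs_mul, abs_of_nonneg hh]
    apply mul_le_mul_of_nonneg_right _ (abs_nonneg _)
    apply mul_le_mul_of_nonneg_right _ hh
    rw [abs_le]; constructor <;> linarith
  have hD := D_abs hm hn hh v
  have h1 : |(cos (m * h * v) - cos (n * h * v)) * (1 - cos θ)| ≤ (m + n) * h * |v| * 2 := by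
    rw [abs_mul]
    apply mul_le_mul hE _ (abs_nonneg _) (by positivity)
    rw [abs_le]; constructor <;> linarith [cos_le_one θ, neg_one_le_cos θ]
  have h2 : |D m n h v * sin θ| ≤ (m + n) * h * |v| * 1 := by
    rw [abs_mul]
    exact mul_le_mul hD (abs_sin_le_one _) (abs_nonneg _) (by positivity)
  have h3 := neg_abs_le ((cos (m * h * v) - cos (n * h * v)) * (1 - cos θ))
  have h4 := le_abs_self (D m n h v * sin θ)
  linarith

end Pool.Agent.Y315.CF
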